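import Pool.Agent.HubG.Count

/-!
# Cycles through one vertex and segments of a long cycle
-/

set_option autoImplicit false

namespace Pool.Agent.HubG

open Finset

/-- the set of the lengths of the cycles of `G` -/
def cycleSet {V : Type} (G : SimpleGraph V) : Set ℕ :=
  {l | ∃ (v : V) (w : G.Walk v v), w.IsCycle ∧ w.length = l}

theorem cycleSet_sub {V W : Type} {G : SimpleGraph V} {G' : SimpleGraph W} (f : G →g G')
    (hf : Function.Injective f) : cycleSet G ⊆ cycleSet G' := by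
  rintro l ⟨v, w, hw, rfl⟩
  exact ⟨f v, w.map f, (SimpleGraph.Walk.isCycle_map_iff_of_injective hf).2 hw,
    SimpleGraph.Walk.length_map f w⟩

theorem cycleSet_iso {V W : Type} {G : SimpleGraph V} {G' : SimpleGraph W} (f : G ≃g G') :
    cycleSet G = cycleSet G' := by
  apply Set.Subset.antisymm
  · exact cycleSet_sub f.toHom f.injective
  · exact cycleSet_sub f.symm.toHom f.symm.injective

theorem cycleSet_bounds {n : ℕ} (G : SimpleGraph (Fin n)) (l : ℕ) (hl : l ∈ cycleSet G) :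
    3 ≤ l ∧ l ≤ n := by
  obtain ⟨v, w, hw, rfl⟩ := hl
  refine ⟨hw.three_le_length, ?_⟩
  have h1 := hw.support_nodup
  have h2 := h1.length_le_card
  rw [Fintype.card_fin] at h2
  simpa using h2

/-- the walk along an injective sequence -/
theorem seq_walk {V : Type} (G : SimpleGraph V) (u : ℕ → V) (d : ℕ) : ∀ (x : ℕ),
    (∀ i, x ≤ i → i < x + d → G.Adj (u i) (u (i + 1))) →
    (∀ i j, x ≤ i → i ≤ x + d → x ≤ j → j ≤ x + d → u i = u j → i = j) →
    ∃ w : G.Walk (u x) (u (x + d)), w.IsPath ∧ w.length = d ∧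
      ∀ v ∈ w.support, ∃ i, x ≤ i ∧ i ≤ x + d ∧ v = u i := by
  induction d with
  | zero =>
    intro x _ _
    refine ⟨SimpleGraph.Walk.nil, SimpleGraph.Walk.IsPath.nil, rfl, ?_⟩
    intro v hv
    rw [SimpleGraph.Walk.support_nil, List.mem_singleton] at hv
    exact ⟨x, le_refl _, le_refl _, hv⟩
  | succ d ih =>
    intro x h hinj
    obtain ⟨w, hw1, hw2, hw3⟩ := ih (x + 1) (fun i h1 h2 => h i (by omega) (by omega))
      (fun i j h1 h2 h3 h4 => hinj i j (by omega) (by omega) (by omega) (by omega))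
    have hadj := h x (le_refl _) (by omega)
    have he : x + 1 + d = x + (d + 1) := by omega
    refine ⟨(SimpleGraph.Walk.cons hadj w).copy rfl (by rw [he]), ?_, ?_, ?_⟩
    · rw [SimpleGraph.Walk.isPath_copy, SimpleGraph.Walk.cons_isPath_iff]
      refine ⟨hw1, ?_⟩
      intro h1
      obtain ⟨i, h2, h3, h4⟩ := hw3 _ h1
      have := hinj x i (le_refl _) (by omega) (by omega) (by omega) h4
      omega
    · rw [SimpleGraph.Walk.length_copy, SimpleGraph.Walk.length_cons, hw2]
    · intro v hv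
      rw [SimpleGraph.Walk.support_copy, SimpleGraph.Walk.support_cons, List.mem_cons] at hv
      rcases hv with hv | hv
      · exact ⟨x, le_refl _, by omega, hv⟩
      · obtain ⟨i, h2, h3, h4⟩ := hw3 v hv
        exact ⟨i, by omega, by omega, h4⟩

/-- the cycle through a vertex and a segment of a path -/
theorem hub_cycle {V : Type} (G : SimpleGraph V) (a : V) (u : ℕ → V) (x y : ℕ) (hxy : x < y)
    (h : ∀ i, x ≤ i → i < y → G.Adj (u i) (u (i + 1)))
    (hinj : ∀ i j, x ≤ i → i ≤ y → x ≤ j → j ≤ y → u i = u j → i = j)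
    (ha : ∀ i, x ≤ i → i ≤ y → a ≠ u i) (h1 : G.Adj a (u x)) (h2 : G.Adj a (u y)) :
    y - x + 2 ∈ cycleSet G := by
  obtain ⟨d, rfl⟩ := Nat.exists_eq_add_of_le hxy.le
  obtain ⟨w, hw1, hw2, hw3⟩ := seq_walk G u d x h hinj
  have hnot : a ∉ w.support := by
    intro h4
    obtain ⟨i, h5, h6, h7⟩ := hw3 _ h4
    exact ha i h5 h6 h7
  have hp : (w.concat h2.symm).IsPath := hw1.concat hnot h2.symm
  refine ⟨a, SimpleGraph.Walk.cons h1 (w.concat h2.symm), ?_, ?_⟩
  · rw [SimpleGraph.Walk.cons_isCycle_iff]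
    refine ⟨hp, ?_⟩
    intro h4
    rw [SimpleGraph.Walk.edges_concat, List.concat_eq_append, List.mem_append,
      List.mem_singleton] at h4
    rcases h4 with h4 | h4
    · exact hnot (SimpleGraph.Walk.fst_mem_support_of_mem_edges w h4)
    · rw [Sym2.eq_iff] at h4
      rcases h4 with ⟨h5, _⟩ | ⟨_, h5⟩
      · exact ha (x + d) (by omega) (le_refl _) h5
      · have := hinj x (x + d) (le_refl _) (by omega) (by omega) (le_refl _) h5
        omega
  · rw [SimpleGraph.Walk.length_cons, SimpleGraph.Walk.length_concat, hw2]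
    omega

/-- `W 0, …, W (l - 1)` is a cycle of `G` -/
structure CycSeq {n : ℕ} (G : SimpleGraph (Fin n)) (l : ℕ) (W : ℕ → Fin n) : Prop where
  adj : ∀ s, s + 1 < l → G.Adj (W s) (W (s + 1))
  last : G.Adj (W (l - 1)) (W 0)
  inj : ∀ s t, s < l → t < l → W s = W t → s = t
  ge : ∀ s, l ≤ s → W s = W 0
  three : 3 ≤ l

theorem exists_cycSeq {n : ℕ} (G : SimpleGraph (Fin n)) (l : ℕ) (h : l ∈ cycleSet G) :
    ∃ W, CycSeq G l W := by
  obtain ⟨v, w, hw, rfl⟩ := h
  have h3 := hw.three_le_length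
  refine ⟨w.getVert, ⟨?_, ?_, ?_, ?_, h3⟩⟩
  · intro s hs
    exact w.adj_getVert_succ (by omega)
  · have h1 := w.adj_getVert_succ (i := w.length - 1) (by omega)
    rw [show w.length - 1 + 1 = w.length by omega, SimpleGraph.Walk.getVert_length] at h1
    rw [SimpleGraph.Walk.getVert_zero]
    exact h1
  · intro s t hs ht hst
    exact hw.getVert_injOn' (show s ≤ w.length - 1 by omega) (show t ≤ w.length - 1 by omega) hst
  · intro s hs
    rw [SimpleGraph.Walk.getVert_zero]
    exact SimpleGraph.Walk.getVert_of_length_le w hs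

theorem CycSeq.adj_mod {n : ℕ} {G : SimpleGraph (Fin n)} {l : ℕ} {W : ℕ → Fin n}
    (h : CycSeq G l W) (s : ℕ) : G.Adj (W (s % l)) (W ((s + 1) % l)) := by
  have h3 := h.three
  have h1 : s % l < l := Nat.mod_lt _ (by omega)
  rw [Nat.add_mod s 1 l, Nat.mod_eq_of_lt (show 1 < l by omega)]
  by_cases h2 : s % l + 1 < l
  · rw [Nat.mod_eq_of_lt h2]
    exact h.adj _ h2
  · have h4 : s % l = l - 1 := by omega
    rw [h4, show l - 1 + 1 = l by omega, Nat.mod_self]
    exact h.last

open Classical in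
/-- start of the numbering of the cycle: behind `a` if `a` is on the cycle -/
noncomputable def rot {n : ℕ} (l : ℕ) (W : ℕ → Fin n) (a : Fin n) : ℕ :=
  if h : ∃ s, s < l ∧ W s = a then h.choose + 1 else 0

open Classical in
/-- the places of the neighbours of `a` on the cycle -/
noncomputable def Sa {n : ℕ} (G : SimpleGraph (Fin n)) (l : ℕ) (W : ℕ → Fin n) (a : Fin n) :
    Finset ℕ :=
  (range l).filter (fun t => G.Adj a (W ((rot l W a + t) % l)))

theorem mem_Sa {n : ℕ} {G : SimpleGraph (Fin n)} {l : ℕ} {W : ℕ → Fin n} {a : Fin n} {t : ℕ} :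
    t ∈ Sa G l W a ↔ t < l ∧ G.Adj a (W ((rot l W a + t) % l)) := by
  classical
  rw [Sa, mem_filter, mem_range]

theorem mod_inj {l c i j : ℕ} (hi : i < l) (hj : j < l) (h : (c + i) % l = (c + j) % l) :
    i = j := by
  have h1 : i ≡ j [MOD l] := Nat.ModEq.add_left_cancel' c h
  rw [Nat.ModEq, Nat.mod_eq_of_lt hi, Nat.mod_eq_of_lt hj] at h1
  exact h1

theorem diff_mem {n : ℕ} {G : SimpleGraph (Fin n)} {l : ℕ} {W : ℕ → Fin n}
    (h : CycSeq G l W) (a : Fin n) (x y : ℕ) (hx : x ∈ Sa G l W a) (hy : y ∈ Sa G l W a)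
    (hxy : x < y) : y - x + 2 ∈ cycleSet G := by
  classical
  have h3 := h.three
  rw [mem_Sa] at hx hy
  apply hub_cycle G a (fun t => W ((rot l W a + t) % l)) x y hxy
  · intro i _ _
    have := h.adj_mod (rot l W a + i)
    exact this
  · intro i j _ hi _ hj hij
    have h4 : (rot l W a + i) % l < l := Nat.mod_lt _ (by omega)
    have h5 : (rot l W a + j) % l < l := Nat.mod_lt _ (by omega)
    exact mod_inj (by omega) (by omega) (h.inj _ _ h4 h5 hij)
  · intro i _ hi hai
    have h4 : (rot l W a + i) % l < l := Nat.mod_lt _ (by omega)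
    have hex : ∃ s, s < l ∧ W s = a := ⟨_, h4, hai.symm⟩
    have hr : rot l W a = hex.choose + 1 := by rw [rot, dif_pos hex]
    obtain ⟨h5, h6⟩ := hex.choose_spec
    set s := hex.choose with hs
    have h7 : (rot l W a + i) % l = s := h.inj _ _ h4 h5 (hai.symm.trans h6.symm)
    rw [hr] at h7
    have h8 : (s + (1 + i)) % l = (s + 0) % l := by
      rw [add_zero, Nat.mod_eq_of_lt h5, ← h7]
      congr 1
      omega
    have h9 : 1 + i ≡ 0 [MOD l] := Nat.ModEq.add_left_cancel' s h8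
    have h10 : l ∣ 1 + i := (Nat.modEq_zero_iff_dvd).1 h9
    have h11 : l ≤ 1 + i := Nat.le_of_dvd (by omega) h10
    have h12 : i = y := by omega
    rw [h12] at hai
    exact hy.2.ne hai
  · exact hx.2
  · exact hy.2

/-- the cycle lengths, shifted by two -/
noncomputable def cyc2 {n : ℕ} (G : SimpleGraph (Fin n)) : Finset ℕ := by
  classical
  exact (Icc 1 n).filter (fun d => d + 2 ∈ cycleSet G)

theorem mem_cyc2 {n : ℕ} {G : SimpleGraph (Fin n)} {d : ℕ} :
    d ∈ cyc2 G ↔ (1 ≤ d ∧ d ≤ n) ∧ d + 2 ∈ cycleSet G := by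
  classical
  unfold cyc2
  rw [mem_filter, mem_Icc]

theorem mem_cyc2' {n : ℕ} {G : SimpleGraph (Fin n)} {d : ℕ} :
    d ∈ cyc2 G ↔ d + 2 ∈ cycleSet G := by
  rw [mem_cyc2]
  refine ⟨fun h => h.2, fun h => ⟨?_, h⟩⟩
  have := cycleSet_bounds G _ h
  omega

theorem cycleSet_eq {n : ℕ} (G : SimpleGraph (Fin n)) :
    cycleSet G = {l | ∃ d ∈ cyc2 G, l = d + 2} := by
  ext l
  constructor
  · intro h
    have h1 := cycleSet_bounds G l h
    refine ⟨l - 2, mem_cyc2.2 ⟨⟨by omega, by omega⟩, ?_⟩, by omega⟩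
    rwa [show l - 2 + 2 = l by omega]
  · rintro ⟨d, hd, rfl⟩
    exact (mem_cyc2.1 hd).2

end Pool.Agent.HubG
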