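import Pool.Agent.HubG.Codes

/-!
# The number of cycle sets of graphs close to a path with few hubs (real form)
-/

set_option autoImplicit false

namespace Pool.Agent.HubG

/-- the number of cycle sets of graphs on `n` vertices in the class `NearPath h t` -/
noncomputable def num (h t n : ℕ) : ℕ :=
  {A : Set ℕ | ∃ G : SimpleGraph (Fin n), NearPath h t G ∧ A = cycleSet G}.ncard

theorem finite_set (h t n : ℕ) :
    {A : Set ℕ | ∃ G : SimpleGraph (Fin n), NearPath h t G ∧ A = cycleSet G}.Finite := by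
  apply (Set.finite_range (fun G : SimpleGraph (Fin n) => cycleSet G)).subset
  rintro _ ⟨G, _, rfl⟩
  exact ⟨G, rfl⟩

theorem num_trivial (h t n : ℕ) : num h t n ≤ 2 ^ n := by
  classical
  have h1 : {A : Set ℕ | ∃ G : SimpleGraph (Fin n), NearPath h t G ∧ A = cycleSet G} ⊆
      (((Finset.Icc 1 n).powerset.image (fun E => ({l | ∃ d ∈ E, l = d + 2} : Set ℕ)) :
        Finset (Set ℕ)) : Set (Set ℕ)) := by
    rintro A ⟨G, _, rfl⟩
    rw [Finset.mem_coe]
    refine Finset.mem_image.2 ⟨cyc2 G, Finset.mem_powerset.2 (Finset.filter_subset _ _), ?_⟩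
    exact (cycleSet_eq G).symm
  calc num h t n ≤ _ := Set.ncard_le_ncard h1 (Finset.finite_toSet _)
    _ = _ := Set.ncard_coe_finset _
    _ ≤ (Finset.Icc 1 n).powerset.card := Finset.card_image_le
    _ = 2 ^ n := by rw [Finset.card_powerset, Nat.card_Icc, Nat.add_sub_cancel]

theorem bnd_le (n m h t : ℕ) (hmn : m ≤ n + 1) :
    ((nfib n m h * ncod n h t + 1 : ℕ) : ℝ) ≤ 2 ^ ((h : ℝ) / (h + 1) * n + 2 * (m : ℝ) ^ 3 +
      (3 * (h : ℝ) * (m : ℝ) ^ 3 + 9 * h + 2 * (h : ℝ) ^ 2 + 5 * t + 4) *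
        Real.logb 2 (n + 2) + 1) := by
  set L : ℝ := Real.logb 2 (n + 2) with hL
  have hn0 : (0 : ℝ) ≤ n := Nat.cast_nonneg n
  have hn2 : (0 : ℝ) < (n : ℝ) + 2 := by positivity
  have h2L : (2 : ℝ) ^ L = n + 2 := Real.rpow_logb (by norm_num) (by norm_num) hn2
  have a1 : ((n : ℝ) + 1) ≤ n + 2 := by linarith
  have a2 : ((n : ℝ) + m ^ 3 + 1) ≤ (n + 2) ^ 3 := by
    have h1 : (m : ℝ) ≤ n + 1 := by exact_mod_cast hmn
    have h2 : (m : ℝ) ^ 3 ≤ (n + 1) ^ 3 := by gcongr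
    nlinarith [sq_nonneg (n : ℝ)]
  have a3 : ((n : ℝ) * n + 1) ≤ (n + 2) ^ 2 := by
    nlinarith
  have a4 : (2 : ℝ) ^ (h * (n + 2 * m ^ 3) / (h + 1)) ≤
      2 ^ ((h : ℝ) / (h + 1) * n + 2 * (m : ℝ) ^ 3) := by
    rw [← Real.rpow_natCast]
    apply Real.rpow_le_rpow_of_exponent_le (by norm_num)
    refine (Nat.cast_div_le (α := ℝ)).trans ?_
    push_cast
    have h1 : (0 : ℝ) < (h : ℝ) + 1 := by positivity
    have h2 : (h : ℝ) / (h + 1) ≤ 1 := by
      rw [div_le_one h1]; linarith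
    calc (h : ℝ) * (n + 2 * m ^ 3) / (h + 1)
        = (h : ℝ) / (h + 1) * n + (h : ℝ) / (h + 1) * (2 * m ^ 3) := by ring
      _ ≤ (h : ℝ) / (h + 1) * n + 1 * (2 * m ^ 3) := by gcongr
      _ = _ := by ring
  have a5 : ((nfib n m h * ncod n h t : ℕ) : ℝ) = (2 : ℝ) ^ (h * (n + 2 * m ^ 3) / (h + 1)) *
      ((((n : ℝ) + 1) ^ (2 * m ^ 3) * (n + m ^ 3 + 1)) ^ h * ((n : ℝ) + 1) ^ (h * m ^ 3)) *
      (((n : ℝ) + 1) * (((n : ℝ) + 1) * (((n : ℝ) + 1) * (((n : ℝ) * n + 1) ^ t *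
        (((n : ℝ) * n + 1) ^ (h * h) * (((n : ℝ) * n + 1) ^ (2 * h + t) *
        ((n : ℝ) + 1) ^ (2 * h + t + 1))))))) := by
    unfold nfib ncod
    push_cast
    rfl
  have a6 : ((nfib n m h * ncod n h t : ℕ) : ℝ) ≤
      2 ^ ((h : ℝ) / (h + 1) * n + 2 * (m : ℝ) ^ 3) *
      ((((n : ℝ) + 2) ^ (2 * m ^ 3) * (n + 2) ^ 3) ^ h * ((n : ℝ) + 2) ^ (h * m ^ 3)) *
      (((n : ℝ) + 2) * (((n : ℝ) + 2) * (((n : ℝ) + 2) * ((((n : ℝ) + 2) ^ 2) ^ t *
        ((((n : ℝ) + 2) ^ 2) ^ (h * h) * ((((n : ℝ) + 2) ^ 2) ^ (2 * h + t) *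
        ((n : ℝ) + 2) ^ (2 * h + t + 1))))))) := by
    rw [a5]
    gcongr
  have a7 : ∀ (Y X : ℝ), Y * (((X ^ (2 * m ^ 3) * X ^ 3) ^ h * X ^ (h * m ^ 3))) *
      (X * (X * (X * ((X ^ 2) ^ t * ((X ^ 2) ^ (h * h) * ((X ^ 2) ^ (2 * h + t) *
        X ^ (2 * h + t + 1))))))) =
      Y * X ^ (3 * h * m ^ 3 + 9 * h + 2 * (h * h) + 5 * t + 4) := by
    intro Y X
    ring
  rw [a7] at a6
  have a8 : ((n : ℝ) + 2) ^ (3 * h * m ^ 3 + 9 * h + 2 * (h * h) + 5 * t + 4) =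
      2 ^ ((3 * (h : ℝ) * (m : ℝ) ^ 3 + 9 * h + 2 * (h : ℝ) ^ 2 + 5 * t + 4) * L) := by
    rw [← h2L, ← Real.rpow_natCast, ← Real.rpow_mul (by norm_num)]
    congr 1
    push_cast
    ring
  rw [a8, ← Real.rpow_add (by norm_num)] at a6
  set Ex : ℝ := (h : ℝ) / (h + 1) * n + 2 * (m : ℝ) ^ 3 +
    (3 * (h : ℝ) * (m : ℝ) ^ 3 + 9 * h + 2 * (h : ℝ) ^ 2 + 5 * t + 4) * L with hEx
  have hL0 : 0 ≤ L := Real.logb_nonneg (by norm_num) (by linarith)
  have hEx0 : 0 ≤ Ex := by positivity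
  have a9 : (1 : ℝ) ≤ 2 ^ Ex := Real.one_le_rpow (by norm_num) hEx0
  rw [Real.rpow_add (by norm_num), Real.rpow_one]
  push_cast at a6 ⊢
  linarith

theorem num_le (n h t : ℕ) (hh : 1 ≤ h) :
    (num h t n : ℝ) ≤ 2 ^ ((h : ℝ) / (h + 1) * n +
      60 * (h * (n : ℝ) ^ (3 / 4 : ℝ) + t) * Real.logb 2 (n + 2)) := by
  rcases Nat.eq_zero_or_pos n with rfl | hn
  · have h1 : (num h t 0 : ℝ) ≤ 1 := by
      have := num_trivial h t 0
      rw [pow_zero] at this
      exact_mod_cast this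
    have h2 : (0 : ℝ) ≤ Real.logb 2 (((0 : ℕ) : ℝ) + 2) := by
      apply Real.logb_nonneg (by norm_num)
      norm_num
    calc (num h t 0 : ℝ) ≤ 1 := h1
      _ ≤ _ := by
        apply Real.one_le_rpow (by norm_num)
        positivity
  · set u : ℝ := (n : ℝ) ^ (1 / 4 : ℝ) with hu
    have hn1 : (1 : ℝ) ≤ n := by exact_mod_cast hn
    have hn0 : (0 : ℝ) ≤ n := by linarith
    have hu1 : 1 ≤ u := Real.one_le_rpow hn1 (by norm_num)
    have hu3 : u ^ 3 = (n : ℝ) ^ (3 / 4 : ℝ) := by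
      rw [hu, ← Real.rpow_natCast, ← Real.rpow_mul hn0]
      norm_num
    have hu4 : u ^ 4 = (n : ℝ) := by
      rw [hu, ← Real.rpow_natCast, ← Real.rpow_mul hn0]
      norm_num
    have hun : u ≤ n := by
      calc u = u * 1 := (mul_one _).symm
        _ ≤ u * u ^ 3 := by
          apply mul_le_mul_of_nonneg_left _ (by linarith)
          exact one_le_pow₀ hu1
        _ = u ^ 4 := by ring
        _ = n := hu4
    set L : ℝ := Real.logb 2 (n + 2) with hL
    have hL1 : 1 ≤ L := by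
      rw [hL, Real.le_logb_iff_rpow_le (by norm_num) (by linarith), Real.rpow_one]
      linarith
    have hh' : (1 : ℝ) ≤ h := by exact_mod_cast hh
    have ht0 : (0 : ℝ) ≤ t := Nat.cast_nonneg t
    rw [← hu3]
    set v : ℝ := u ^ 3 with hv
    have hv1 : 1 ≤ v := one_le_pow₀ hu1
    rcases le_or_gt u h with hcase | hcase
    · -- many hubs: trivial
      have h1 : (num h t n : ℝ) ≤ 2 ^ (n : ℝ) := by
        rw [Real.rpow_natCast]
        exact_mod_cast num_trivial h t n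
      refine h1.trans ?_
      apply Real.rpow_le_rpow_of_exponent_le (by norm_num)
      have h2 : (n : ℝ) ≤ h * v := by
        rw [← hu4]
        calc u ^ 4 = u * v := by rw [hv]; ring
          _ ≤ h * v := by gcongr
      have h3 : 0 ≤ (h : ℝ) / (h + 1) * n := by positivity
      have h4 : (h : ℝ) * v ≤ (h * v + t) * L := by nlinarith
      have h5 : 0 ≤ ((h : ℝ) * v + t) * L := by positivity
      nlinarith
    · set m : ℕ := ⌈u⌉₊ with hm
      have hm1 : u ≤ m := Nat.le_ceil u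
      have hm2 : (m : ℝ) < u + 1 := Nat.ceil_lt_add_one (by linarith)
      have hmpos : 1 ≤ m := by
        have : (1 : ℝ) ≤ m := hu1.trans hm1
        exact_mod_cast this
      have hnm : n ≤ m ^ 4 := by
        have : (n : ℝ) ≤ (m : ℝ) ^ 4 := by
          rw [← hu4]
          gcongr
        exact_mod_cast this
      have hmn : m ≤ n + 1 := by
        have : (m : ℝ) ≤ n + 1 := by linarith
        exact_mod_cast this
      have key : (num h t n : ℝ) ≤ ((nfib n m h * ncod n h t + 1 : ℕ) : ℝ) := by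
        exact_mod_cast ncard_le n m h t hmpos hnm hn
      refine key.trans ((bnd_le n m h t hmn).trans ?_)
      apply Real.rpow_le_rpow_of_exponent_le (by norm_num)
      have hmt : (m : ℝ) ^ 3 ≤ 8 * v := by
        have h1 : (m : ℝ) ≤ 2 * u := by linarith
        calc (m : ℝ) ^ 3 ≤ (2 * u) ^ 3 := by gcongr
          _ = 8 * v := by rw [hv]; ring
      have hhv : (h : ℝ) ≤ v := by
        have : u ≤ v := by
          rw [hv]
          calc u = u * 1 := (mul_one _).symm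
            _ ≤ u * u ^ 2 := by
              apply mul_le_mul_of_nonneg_left _ (by linarith)
              exact one_le_pow₀ hu1
            _ = u ^ 3 := by ring
        linarith
      have b1 : 1 ≤ h * v := by nlinarith
      have b2 : v ≤ h * v := by nlinarith
      have b3 : (h : ℝ) ≤ h * v := by nlinarith
      have b4 : (h : ℝ) ^ 2 ≤ h * v := by nlinarith
      have b5 : 2 * (m : ℝ) ^ 3 ≤ 16 * (h * v) * L := by
        have : h * v ≤ h * v * L := by nlinarith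
        linarith
      have b6 : 3 * (h : ℝ) * (m : ℝ) ^ 3 + 9 * h + 2 * (h : ℝ) ^ 2 + 5 * t + 4 ≤
          39 * (h * v) + 5 * t := by
        have : (h : ℝ) * (m : ℝ) ^ 3 ≤ h * (8 * v) := by gcongr
        linarith
      have b7 : (3 * (h : ℝ) * (m : ℝ) ^ 3 + 9 * h + 2 * (h : ℝ) ^ 2 + 5 * t + 4) * L ≤
          (39 * (h * v) + 5 * t) * L := by gcongr
      have b8 : 1 ≤ h * v * L := by nlinarith
      have b9 : 0 ≤ (t : ℝ) * L := by positivity
      nlinarith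

end Pool.Agent.HubG
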