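import Pool.Agent.HubG.Std

/-!
# The number of cycle sets of graphs close to a path with few hubs (integer form)
-/

set_option autoImplicit false

namespace Pool.Agent.HubG

open Finset

/-- number of codes -/
def ncod (n h t : ℕ) : ℕ :=
  (n + 1) * ((n + 1) * ((n + 1) * ((n * n + 1) ^ t * ((n * n + 1) ^ (h * h) *
    ((n * n + 1) ^ (2 * h + t) * (n + 1) ^ (2 * h + t + 1))))))

/-- number of sets with the same code -/
def nfib (n m h : ℕ) : ℕ :=
  2 ^ (h * (n + 2 * m ^ 3) / (h + 1)) *
    (((n + 1) ^ (2 * m ^ 3) * (n + m ^ 3 + 1)) ^ h * (n + 1) ^ (h * m ^ 3))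

/-- what is known about the representative of a cycle set -/
structure Good (h t : ℕ) {n : ℕ} (N : ℕ) (G : SimpleGraph (Fin n)) (l : ℕ) (W : ℕ → Fin n) :
    Prop where
  hN : N ≤ n
  hn : n ≤ N + h
  hD : (Ds G N).card ≤ t
  hW : CycSeq G l W
  hl : ∀ d ∈ cyc2 G, d ≤ l
  hln : l ≤ n

theorem card_codes (n m h t : ℕ) (hm : 1 ≤ m) (hn : n ≤ m ^ 4) (hn0 : 0 < n)
    (D : Finset (Finset ℕ))
    (hD : ∀ A ∈ D, ∃ (N : ℕ) (G : SimpleGraph (Fin n)) (l : ℕ) (W : ℕ → Fin n),
      Good h t N G l W ∧ cyc2 G = A) :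
    D.card ≤ nfib n m h * ncod n h t := by
  classical
  have hne : Nonempty (Fin n) := ⟨⟨0, hn0⟩⟩
  choose! Nf Gf lf Wf hgood hcyc using hD
  -- the code
  let code : Finset ℕ → ℕ × (ℕ × (Fin n × (Finset (Fin n × Fin n) × (Finset (Fin n × Fin n) ×
      (Finset (ℕ × Fin n) × Finset ℕ))))) := fun A =>
    (Nf A, lf A, Wf A 0, Ds (Gf A) (Nf A), Hs (Gf A) (Nf A), Jp (Nf A) (lf A) (Wf A),
      Dr (Nf A) (lf A) (Wf A))
  let K : Finset (ℕ × (ℕ × (Fin n × (Finset (Fin n × Fin n) × (Finset (Fin n × Fin n) ×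
      (Finset (ℕ × Fin n) × Finset ℕ)))))) :=
    range (n + 1) ×ˢ (range (n + 1) ×ˢ (univ ×ˢ (small univ t ×ˢ (small univ (h * h) ×ˢ
      (small (range n ×ˢ univ) (2 * h + t) ×ˢ small (range n) (2 * h + t + 1))))))
  have hK : K.card ≤ ncod n h t := by
    have h1 := card_small (univ : Finset (Fin n × Fin n)) t
    have h2 := card_small (univ : Finset (Fin n × Fin n)) (h * h)
    have h3 := card_small (range n ×ˢ (univ : Finset (Fin n))) (2 * h + t)
    have h4 := card_small (range n) (2 * h + t + 1)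
    rw [Finset.card_univ, Fintype.card_prod, Fintype.card_fin] at h1 h2
    rw [card_product, Finset.card_univ, Fintype.card_fin, card_range] at h3
    rw [card_range] at h4
    show (range (n + 1) ×ˢ (range (n + 1) ×ˢ ((univ : Finset (Fin n)) ×ˢ
      (small (univ : Finset (Fin n × Fin n)) t ×ˢ (small (univ : Finset (Fin n × Fin n)) (h * h) ×ˢ
      (small (range n ×ˢ (univ : Finset (Fin n))) (2 * h + t) ×ˢ
        small (range n) (2 * h + t + 1))))))).card ≤ _
    rw [card_product, card_product, card_product, card_product, card_product, card_product,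
      card_range, Finset.card_univ, Fintype.card_fin]
    unfold ncod
    gcongr
    omega
  have himg : D.image code ⊆ K := by
    intro c hc
    obtain ⟨A, hA, rfl⟩ := mem_image.1 hc
    have g := hgood A hA
    have hJs := card_Js (Gf A) (Nf A) h (lf A) (Wf A) g.hn g.hW
    have hDr := card_Dr (Nf A) (lf A) (Wf A)
    have hDs := g.hD
    refine mem_product.2 ⟨mem_range.2 (Nat.lt_succ_of_le g.hN), mem_product.2
      ⟨mem_range.2 (Nat.lt_succ_of_le g.hln), mem_product.2 ⟨mem_univ _, mem_product.2 ⟨?_,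
      mem_product.2 ⟨?_, mem_product.2 ⟨?_, ?_⟩⟩⟩⟩⟩⟩
    · show Ds (Gf A) (Nf A) ∈ small univ t
      rw [small, mem_filter, mem_powerset]
      exact ⟨subset_univ _, hDs⟩
    · show Hs (Gf A) (Nf A) ∈ small univ (h * h)
      rw [small, mem_filter, mem_powerset]
      refine ⟨subset_univ _, ?_⟩
      have h1 : (Hs (Gf A) (Nf A)).card ≤ (HU (n := n) (Nf A)).card :=
        card_le_card (filter_subset _ _)
      refine h1.trans ?_
      rw [HU, card_product]
      exact Nat.mul_le_mul (card_hubs _ _ g.hn) (card_hubs _ _ g.hn)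
    · show Jp (Nf A) (lf A) (Wf A) ∈ small (range n ×ˢ univ) (2 * h + t)
      rw [small, mem_filter, mem_powerset]
      refine ⟨?_, ?_⟩
      · rintro ⟨s, v⟩ h1
        rw [mem_product, mem_range]
        have h2 := (mem_Jp.1 h1).1.1
        have h3 := g.hln
        exact ⟨by show s < n; omega, mem_univ _⟩
      · have h1 : (Jp (Nf A) (lf A) (Wf A)).card ≤ (Js (Nf A) (lf A) (Wf A)).card := by
          unfold Jp
          exact card_image_le
        omega
    · show Dr (Nf A) (lf A) (Wf A) ∈ small (range n) (2 * h + t + 1)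
      rw [small, mem_filter, mem_powerset]
      refine ⟨?_, by omega⟩
      intro s h1
      rw [mem_range]
      have h2 := (mem_Dr.1 h1).1
      have h3 := g.hln
      omega
  -- the fibres
  have hfib : ∀ c ∈ D.image code, (D.filter (fun A => code A = c)).card ≤ nfib n m h := by
    intro c hc
    obtain ⟨A0, hA0, rfl⟩ := mem_image.1 hc
    set N := Nf A0 with hNdef
    set l := lf A0 with hldef
    set W := Wf A0 with hWdef
    have g0 := hgood A0 hA0
    have hcode : ∀ A ∈ D.filter (fun A => code A = code A0), A ∈ D ∧ Nf A = N ∧ lf A = l ∧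
        Wf A = W ∧ Ds (Gf A) N = Ds (Gf A0) N ∧ Hs (Gf A) N = Hs (Gf A0) N := by
      intro A hA
      obtain ⟨h1, h2⟩ := mem_filter.1 hA
      have h3 : (Nf A, lf A, Wf A 0, Ds (Gf A) (Nf A), Hs (Gf A) (Nf A), Jp (Nf A) (lf A) (Wf A),
        Dr (Nf A) (lf A) (Wf A)) = (Nf A0, lf A0, Wf A0 0, Ds (Gf A0) (Nf A0),
        Hs (Gf A0) (Nf A0), Jp (Nf A0) (lf A0) (Wf A0), Dr (Nf A0) (lf A0) (Wf A0)) := h2
      rw [Prod.mk.injEq, Prod.mk.injEq, Prod.mk.injEq, Prod.mk.injEq, Prod.mk.injEq,
        Prod.mk.injEq] at h3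
      obtain ⟨h4, h5, h6, h7, h8, h9, h10⟩ := h3
      have g := hgood A h1
      rw [h4] at h7 h8 h9 h10
      rw [h5] at h9 h10
      have hW1 := g.hW
      have hW0 := g0.hW
      rw [h5] at hW1
      have h11 := W_recon (Nf A0) (lf A0) (Wf A) (Wf A0) hW1.inj hW0.inj h6 h9 h10
      refine ⟨h1, h4, h5, ?_, h7, h8⟩
      funext s
      by_cases hs : s < lf A0
      · exact h11 s hs
      · rw [hW1.ge s (not_lt.1 hs), h6]
        exact (hW0.ge s (not_lt.1 hs)).symm
    have hl3 : 3 ≤ l := g0.hW.three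
    have hln : l ≤ n := g0.hln
    let hub : Fin h → Fin n := fun j => ⟨(N + j.val) % n, Nat.mod_lt _ hn0⟩
    have key := count (ι := Fin h) (κ := Fin n × Fin n) l m hm (hln.trans hn)
      (D.filter (fun A => code A = code A0))
      (fun A j => Sa (Gf A) l W (hub j)) (fun A => Es (Gf A) N l W) (EV N l W) ?_ ?_ ?_ ?_ ?_
    · rw [Fintype.card_fin] at key
      refine key.trans ?_
      have hV : (EV N l W).card ≤ h * (n - l) := by
        rw [EV, card_product]
        have h1 := card_Off l W g0.hW.inj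
        have h2 := card_hubs (n := n) N h g0.hn
        have h3 : (Off l W).card = n - l := by omega
        rw [h3]
        exact Nat.mul_le_mul_right _ h2
      have h1 : (h * (l + 2 * m ^ 3) + (EV N l W).card) / (h + 1) ≤
          h * (n + 2 * m ^ 3) / (h + 1) := by
        apply Nat.div_le_div_right
        calc h * (l + 2 * m ^ 3) + (EV N l W).card ≤ h * (l + 2 * m ^ 3) + h * (n - l) :=
              Nat.add_le_add_left hV _
          _ = h * (l + 2 * m ^ 3 + (n - l)) := by ring
          _ = h * (n + 2 * m ^ 3) := by congr 1; omega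
      unfold nfib
      gcongr
      norm_num
    · intro A _
      exact filter_subset _ _
    · intro A hA A' hA' hSS hEE
      obtain ⟨a1, a2, a3, a4, a5, a6⟩ := hcode A hA
      obtain ⟨b1, b2, b3, b4, b5, b6⟩ := hcode A' hA'
      have hG : Gf A = Gf A' := by
        apply G_recon (Gf A) (Gf A') N l W (by omega) (a5.trans b5.symm) (a6.trans b6.symm) hEE
        intro a ha
        have h1 : a.val - N < h := by
          have := a.2
          have := g0.hn
          omega
        have h2 := congrFun hSS ⟨a.val - N, h1⟩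
        have h3 : hub ⟨a.val - N, h1⟩ = a := by
          apply Fin.ext
          show (N + (a.val - N)) % n = a.val
          rw [Nat.add_sub_cancel' ha, Nat.mod_eq_of_lt a.2]
        rw [h3] at h2
        exact h2
      rw [← hcyc A a1, ← hcyc A' b1, hG]
    · intro A hA d hd
      obtain ⟨a1, a2, a3, a4, a5, a6⟩ := hcode A hA
      rw [← hcyc A a1] at hd
      have h1 := (hgood A a1).hl d hd
      rw [a3] at h1
      exact mem_Icc.2 ⟨(mem_cyc2.1 hd).1.1, h1⟩
    · intro A hA j
      exact filter_subset _ _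
    · intro A hA j x hx y hy hxy
      obtain ⟨a1, a2, a3, a4, a5, a6⟩ := hcode A hA
      rw [← hcyc A a1, mem_cyc2']
      have h1 := (hgood A a1).hW
      rw [a3, a4] at h1
      exact diff_mem h1 (hub j) x y hx hy hxy
  calc D.card ≤ nfib n m h * (D.image code).card := card_le_mul_card_image D _ hfib
    _ ≤ nfib n m h * K.card := by
        apply Nat.mul_le_mul_left
        exact card_le_card himg
    _ ≤ nfib n m h * ncod n h t := by
        apply Nat.mul_le_mul_left
        exact hK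

/-- the integer form for the number of cycle sets -/
theorem ncard_le (n m h t : ℕ) (hm : 1 ≤ m) (hn : n ≤ m ^ 4) (hn0 : 0 < n) :
    {A : Set ℕ | ∃ G : SimpleGraph (Fin n), NearPath h t G ∧ A = cycleSet G}.ncard ≤
      nfib n m h * ncod n h t + 1 := by
  classical
  let D0 : Finset (Finset ℕ) :=
    ((univ : Finset (SimpleGraph (Fin n))).filter (fun G => NearPath h t G)).image cyc2
  have hD : ∀ A ∈ D0.erase ∅, ∃ (N : ℕ) (G : SimpleGraph (Fin n)) (l : ℕ) (W : ℕ → Fin n),
      Good h t N G l W ∧ cyc2 G = A := by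
    intro A hA
    obtain ⟨hA0, hA⟩ := mem_erase.1 hA
    obtain ⟨G, hG, rfl⟩ := mem_image.1 hA
    obtain ⟨N, G', h1, h2, h3, h4⟩ := std G (mem_filter.1 hG).2
    have h5 : cyc2 G' = cyc2 G := by
      ext d
      rw [mem_cyc2, mem_cyc2, h4]
    obtain ⟨d, hd, hmax⟩ := exists_max_image (cyc2 G) id (nonempty_iff_ne_empty.2 hA0)
    rw [← h5] at hd
    have hd2 := mem_cyc2'.1 hd
    obtain ⟨W, hW⟩ := exists_cycSeq G' (d + 2) hd2
    refine ⟨N, G', d + 2, W, ⟨h1, h2, h3, hW, ?_, (cycleSet_bounds G' _ hd2).2⟩, h5⟩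
    intro d' hd'
    rw [h5] at hd'
    have := hmax d' hd'
    simp only [id] at this
    omega
  have h1 : {A : Set ℕ | ∃ G : SimpleGraph (Fin n), NearPath h t G ∧ A = cycleSet G} ⊆
      ((D0.image (fun E => ({l | ∃ d ∈ E, l = d + 2} : Set ℕ)) : Finset (Set ℕ)) :
        Set (Set ℕ)) := by
    rintro A ⟨G, hG, rfl⟩
    rw [mem_coe]
    refine mem_image.2 ⟨cyc2 G, mem_image.2 ⟨G, mem_filter.2 ⟨mem_univ _, hG⟩, rfl⟩, ?_⟩
    exact (cycleSet_eq G).symm
  have h2 : D0.card ≤ (D0.erase ∅).card + 1 := by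
    have := pred_card_le_card_erase (s := D0) (a := ∅)
    omega
  calc _ ≤ (((D0.image (fun E => ({l | ∃ d ∈ E, l = d + 2} : Set ℕ)) : Finset (Set ℕ)) :
        Set (Set ℕ))).ncard := Set.ncard_le_ncard h1 (Finset.finite_toSet _)
    _ = (D0.image (fun E => ({l | ∃ d ∈ E, l = d + 2} : Set ℕ))).card := Set.ncard_coe_finset _
    _ ≤ D0.card := card_image_le
    _ ≤ (D0.erase ∅).card + 1 := h2
    _ ≤ _ := Nat.add_le_add_right (card_codes n m h t hm hn hn0 _ hD) 1

end Pool.Agent.HubG
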