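import Mathlib

/-!
# Counting sets which contain the differences of several sets

Elementary container argument for the number of cycle sets of graphs with few hubs.
-/

set_option autoImplicit false

namespace Pool.Agent.HubG

open Finset

/-! ### Small sets -/

/-- subsets of `U` with at most `s` elements -/
def small {β : Type} [DecidableEq β] (U : Finset β) (s : ℕ) : Finset (Finset β) :=
  U.powerset.filter (fun X => X.card ≤ s)

theorem card_small {β : Type} [DecidableEq β] (U : Finset β) (s : ℕ) :
    (small U s).card ≤ (U.card + 1) ^ s := by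
  induction s with
  | zero =>
    have : small U 0 ⊆ {∅} := by
      intro X hX
      rw [small, mem_filter] at hX
      rw [mem_singleton]
      exact card_eq_zero.1 (Nat.le_zero.1 hX.2)
    simpa using card_le_card this
  | succ s ih =>
    have h : small U (s + 1) ⊆ (small U s) ∪
        ((small U s) ×ˢ U).image (fun p => insert p.2 p.1) := by
      intro X hX
      rw [small, mem_filter, mem_powerset] at hX
      rw [mem_union]
      by_cases h1 : X.card ≤ s
      · left
        rw [small, mem_filter, mem_powerset]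
        exact ⟨hX.1, h1⟩
      · right
        have h2 : X.Nonempty := by
          rw [← card_pos]; omega
        obtain ⟨x, hx⟩ := h2
        rw [mem_image]
        refine ⟨(X.erase x, x), ?_, insert_erase hx⟩
        rw [mem_product, small, mem_filter, mem_powerset]
        refine ⟨⟨(erase_subset _ _).trans hX.1, ?_⟩, hX.1 hx⟩
        show (X.erase x).card ≤ s
        rw [card_erase_of_mem hx]; omega
    calc (small U (s + 1)).card ≤ _ := card_le_card h
      _ ≤ (small U s).card + (((small U s) ×ˢ U).image (fun p => insert p.2 p.1)).card :=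
          card_union_le _ _
      _ ≤ (small U s).card + ((small U s) ×ˢ U).card := by
          gcongr; exact card_image_le
      _ = (small U s).card * (U.card + 1) := by rw [card_product]; ring
      _ ≤ (U.card + 1) ^ s * (U.card + 1) := by gcongr
      _ = (U.card + 1) ^ (s + 1) := by ring

/-! ### The first dense window -/

/-- window number `a` of `X` -/
def win (m : ℕ) (X : Finset ℕ) (a : ℕ) : Finset ℕ :=
  X.filter (fun x => a * m ^ 3 ≤ x ∧ x < (a + 1) * m ^ 3)

open Classical in
/-- end of the first window with at least `m ^ 2` elements, or `n` -/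
noncomputable def cut (n m : ℕ) (X : Finset ℕ) : ℕ :=
  if h : ∃ a, m ^ 2 ≤ (win m X a).card then (Nat.find h + 1) * m ^ 3 else n

theorem card_below (m : ℕ) (X : Finset ℕ) (b : ℕ) (h : ∀ a < b, (win m X a).card < m ^ 2) :
    (X.filter (fun x => x < b * m ^ 3)).card ≤ b * m ^ 2 := by
  induction b with
  | zero => simp
  | succ b ih =>
    have h1 : X.filter (fun x => x < (b + 1) * m ^ 3) ⊆
        X.filter (fun x => x < b * m ^ 3) ∪ win m X b := by
      intro x hx
      rw [mem_filter] at hx
      rw [mem_union, mem_filter, win, mem_filter]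
      by_cases h2 : x < b * m ^ 3
      · left; exact ⟨hx.1, h2⟩
      · right; exact ⟨hx.1, not_lt.1 h2, hx.2⟩
    have h2 := card_le_card h1
    have h3 := card_union_le (X.filter (fun x => x < b * m ^ 3)) (win m X b)
    have h4 := ih (fun a ha => h a (by omega))
    have h5 := h b (by omega)
    have h6 : (b + 1) * m ^ 2 = b * m ^ 2 + m ^ 2 := by ring
    omega

theorem cut_spec (n m : ℕ) (hm : 1 ≤ m) (hn : n ≤ m ^ 4) (X : Finset ℕ) (hX : X ⊆ range n) :
    (X.filter (fun x => x < cut n m X)).card ≤ 2 * m ^ 3 ∧ cut n m X ≤ n + m ^ 3 ∧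
      (cut n m X < n → m ^ 3 ≤ cut n m X ∧
        m ^ 2 ≤ (X.filter (fun x => cut n m X - m ^ 3 ≤ x ∧ x < cut n m X)).card) := by
  classical
  have hm3 : 1 ≤ m ^ 3 := Nat.one_le_pow _ _ hm
  by_cases h : ∃ a, m ^ 2 ≤ (win m X a).card
  · have hc : cut n m X = (Nat.find h + 1) * m ^ 3 := by rw [cut, dif_pos h]
    have h1 := Nat.find_spec h
    have h2 : ∀ a < Nat.find h, (win m X a).card < m ^ 2 := fun a ha =>
      not_le.1 (Nat.find_min h ha)
    set a := Nat.find h with ha
    have h3 : (win m X a).Nonempty := by
      rw [← card_pos]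
      have : 1 ≤ m ^ 2 := Nat.one_le_pow _ _ hm
      omega
    obtain ⟨x, hx⟩ := h3
    rw [win, mem_filter] at hx
    have hxn : x < n := mem_range.1 (hX hx.1)
    have ham : a < m := by
      by_contra h4
      push Not at h4
      have : m * m ^ 3 ≤ a * m ^ 3 := Nat.mul_le_mul_right _ h4
      have h5 : m * m ^ 3 = m ^ 4 := by ring
      omega
    have hcc : (a + 1) * m ^ 3 = a * m ^ 3 + m ^ 3 := by ring
    refine ⟨?_, ?_, ?_⟩
    · rw [hc]
      have h4 : X.filter (fun x => x < (a + 1) * m ^ 3) ⊆
          X.filter (fun x => x < a * m ^ 3) ∪ Ico (a * m ^ 3) ((a + 1) * m ^ 3) := by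
        intro y hy
        rw [mem_filter] at hy
        rw [mem_union, mem_filter, mem_Ico]
        by_cases h5 : y < a * m ^ 3
        · left; exact ⟨hy.1, h5⟩
        · right; exact ⟨not_lt.1 h5, hy.2⟩
      have h5 := card_le_card h4
      have h6 := card_union_le (X.filter (fun x => x < a * m ^ 3))
        (Ico (a * m ^ 3) ((a + 1) * m ^ 3))
      have h7 := card_below m X a h2
      rw [Nat.card_Ico] at h6
      have h8 : a * m ^ 2 ≤ m * m ^ 2 := Nat.mul_le_mul_right _ ham.le
      have h9 : m * m ^ 2 = m ^ 3 := by ring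
      omega
    · rw [hc]; omega
    · intro _
      rw [hc]
      refine ⟨by omega, ?_⟩
      have h4 : (a + 1) * m ^ 3 - m ^ 3 = a * m ^ 3 := by omega
      rw [h4]
      exact h1
  · have hc : cut n m X = n := by rw [cut, dif_neg h]
    rw [hc]
    refine ⟨?_, by omega, fun h => absurd h (lt_irrefl _)⟩
    push Not at h
    have h1 := card_below m X m (fun a _ => h a)
    have h2 : X.filter (fun x => x < n) ⊆ X.filter (fun x => x < m * m ^ 3) := by
      intro y hy
      rw [mem_filter] at hy ⊢
      refine ⟨hy.1, ?_⟩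
      have : m * m ^ 3 = m ^ 4 := by ring
      omega
    have h3 := card_le_card h2
    have h4 : m * m ^ 2 = m ^ 3 := by ring
    omega

/-! ### Containers -/

/-- elements of `[c, n)` of the form `z + p` -/
def bad (n c : ℕ) (P T : Finset ℕ) : Finset ℕ :=
  (Ico c n).filter (fun x => ∃ z ∈ T, ∃ p ∈ P, x = z + p)

/-- the other elements of `[c, n)` -/
def fre (n c : ℕ) (P T : Finset ℕ) : Finset ℕ :=
  (Ico c n).filter (fun x => ¬ ∃ z ∈ T, ∃ p ∈ P, x = z + p)

/-- free elements of the form `z + p` -/
def hit (n c : ℕ) (P T : Finset ℕ) (z : ℕ) : Finset ℕ :=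
  (fre n c P T).filter (fun x => ∃ p ∈ P, x = z + p)

theorem bad_add_fre (n c : ℕ) (P T : Finset ℕ) :
    (bad n c P T).card + (fre n c P T).card = n - c := by
  rw [bad, fre, Finset.card_filter_add_card_filter_not, Nat.card_Ico]

theorem bad_insert (n c : ℕ) (P T : Finset ℕ) (z : ℕ) :
    (bad n c P T).card + (hit n c P T z).card ≤ (bad n c P (insert z T)).card := by
  rw [← card_union_of_disjoint]
  · apply card_le_card
    intro x hx
    rw [mem_union] at hx
    rw [bad, mem_filter]
    rcases hx with hx | hx
    · rw [bad, mem_filter] at hx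
      obtain ⟨h1, z', hz', p, hp, h2⟩ := hx
      exact ⟨h1, z', mem_insert_of_mem hz', p, hp, h2⟩
    · rw [hit, mem_filter, fre, mem_filter] at hx
      obtain ⟨⟨h1, _⟩, p, hp, h2⟩ := hx
      exact ⟨h1, z, mem_insert_self _ _, p, hp, h2⟩
  · rw [disjoint_left]
    intro x hx hx2
    rw [bad, mem_filter] at hx
    rw [hit, mem_filter, fre, mem_filter] at hx2
    exact hx2.1.2 hx.2

variable {ι : Type} [Fintype ι]

/-- the container for the complement -/
def con (n m : ℕ) (c : ι → ℕ) (P : ι → Finset ℕ) (T : Finset ℕ) : Finset ℕ :=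
  (Icc 1 n).filter (fun z => ∀ j, (hit n (c j) (P j) T z).card < m)

/-- fingerprints -/
theorem exists_fingerprint (n m : ℕ) (hm : 1 ≤ m) (c : ι → ℕ) (P : ι → Finset ℕ)
    (Z : Finset ℕ) (hZ : Z ⊆ Icc 1 n) :
    ∃ T ⊆ Z, m * T.card ≤ Fintype.card ι * n ∧ Z ⊆ con n m c P T := by
  classical
  obtain ⟨T, hT, hmax⟩ := Finset.exists_max_image
    (Z.powerset.filter (fun T => m * T.card ≤ ∑ j, (bad n (c j) (P j) T).card)) card
    ⟨∅, by rw [mem_filter]; exact ⟨empty_mem_powerset _, by simp⟩⟩
  rw [mem_filter, mem_powerset] at hT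
  refine ⟨T, hT.1, hT.2.trans ?_, ?_⟩
  · calc ∑ j, (bad n (c j) (P j) T).card ≤ ∑ _j : ι, n := by
          apply sum_le_sum
          intro j _
          have := bad_add_fre n (c j) (P j) T
          omega
      _ = Fintype.card ι * n := by simp [Finset.card_univ]
  · intro z hz
    rw [con, mem_filter]
    refine ⟨hZ hz, fun j => ?_⟩
    by_cases hzT : z ∈ T
    · have : hit n (c j) (P j) T z = ∅ := by
        rw [eq_empty_iff_forall_notMem]
        intro x hx
        rw [hit, mem_filter, fre, mem_filter] at hx
        obtain ⟨⟨_, h1⟩, p, hp, h2⟩ := hx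
        exact h1 ⟨z, hzT, p, hp, h2⟩
      rw [this, card_empty]; omega
    · by_contra h
      push Not at h
      have h1 : insert z T ∈
          Z.powerset.filter (fun T => m * T.card ≤ ∑ j, (bad n (c j) (P j) T).card) := by
        rw [mem_filter, mem_powerset]
        refine ⟨insert_subset hz hT.1, ?_⟩
        rw [card_insert_of_notMem hzT]
        have h2 : ∑ j, (bad n (c j) (P j) T).card + (hit n (c j) (P j) T z).card ≤
            ∑ j, (bad n (c j) (P j) (insert z T)).card := by
          calc ∑ j, (bad n (c j) (P j) T).card + (hit n (c j) (P j) T z).card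
              ≤ ∑ j, (bad n (c j) (P j) T).card + ∑ j, (hit n (c j) (P j) T z).card := by
                gcongr
                exact single_le_sum (f := fun j => (hit n (c j) (P j) T z).card)
                  (fun _ _ => Nat.zero_le _) (mem_univ j)
            _ = ∑ j, ((bad n (c j) (P j) T).card + (hit n (c j) (P j) T z).card) :=
                sum_add_distrib.symm
            _ ≤ _ := sum_le_sum (fun j _ => bad_insert n (c j) (P j) T z)
        calc m * (T.card + 1) = m * T.card + m := by ring
          _ ≤ ∑ j, (bad n (c j) (P j) T).card + (hit n (c j) (P j) T z).card :=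
              Nat.add_le_add hT.2 h
          _ ≤ _ := h2
      have h3 := hmax _ h1
      rw [card_insert_of_notMem hzT] at h3
      omega

/-- double counting -/
theorem con_add_fre (n m : ℕ) (hm : 1 ≤ m) (hn : n ≤ m ^ 4) (c : ι → ℕ) (P : ι → Finset ℕ)
    (T : Finset ℕ) (j : ι) (hc : m ^ 3 ≤ c j) (hP : ∀ p ∈ P j, c j - m ^ 3 ≤ p ∧ p < c j)
    (hP2 : m ^ 2 ≤ (P j).card) :
    (con n m c P T).card + (fre n (c j) (P j) T).card ≤ n + 2 * m ^ 3 := by
  classical
  set F := fre n (c j) (P j) T with hF
  set B := bad n (c j) (P j) T with hB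
  have hBF : B.card + F.card = n - c j := bad_add_fre n (c j) (P j) T
  have hG : (con n m c P T).card ≤ n := by
    have := card_le_card (filter_subset (fun z => ∀ j, (hit n (c j) (P j) T z).card < m)
      (Icc 1 n))
    rw [Nat.card_Icc] at this
    simpa [con] using this
  by_cases hcn : n ≤ c j
  · omega
  push Not at hcn
  set G' := (con n m c P T).filter (fun z => m ^ 3 ≤ z ∧ z + c j ≤ n) with hG'
  -- pairs
  have h1 : ∀ z ∈ G', (P j).card ≤ ((P j).filter (fun p => z + p ∈ B)).card + m := by
    intro z hz
    rw [hG', mem_filter, con, mem_filter] at hz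
    have h2 := hz.1.2 j
    have h3 : (P j).card ≤ ((P j).filter (fun p => z + p ∈ B)).card +
        ((P j).filter (fun p => ¬ z + p ∈ B)).card := by
      rw [Finset.card_filter_add_card_filter_not]
    have h4 : ((P j).filter (fun p => ¬ z + p ∈ B)).card ≤ (hit n (c j) (P j) T z).card := by
      apply card_le_card_of_injOn (fun p => z + p)
      · intro p hp
        rw [mem_coe, mem_filter] at hp
        rw [mem_coe, hit, mem_filter, fre, mem_filter, mem_Ico]
        have h5 := hP p hp.1
        have h6 : z + p ∈ Ico (c j) n := by rw [mem_Ico]; omega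
        refine ⟨⟨mem_Ico.1 h6, ?_⟩, p, hp.1, rfl⟩
        intro h7
        exact hp.2 (by rw [hB, bad, mem_filter]; exact ⟨h6, h7⟩)
      · intro p _ p' _ h
        simpa using h
    omega
  have h2 : G'.card * (P j).card ≤ ∑ z ∈ G', ((P j).filter (fun p => z + p ∈ B)).card +
      G'.card * m := by
    calc G'.card * (P j).card = ∑ _z ∈ G', (P j).card := by simp
      _ ≤ ∑ z ∈ G', (((P j).filter (fun p => z + p ∈ B)).card + m) := sum_le_sum h1
      _ = _ := by rw [sum_add_distrib]; simp
  have h3 : ∑ z ∈ G', ((P j).filter (fun p => z + p ∈ B)).card ≤ (P j).card * B.card := by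
    have h4 : ∑ z ∈ G', ((P j).filter (fun p => z + p ∈ B)).card =
        ∑ p ∈ P j, (G'.filter (fun z => z + p ∈ B)).card := by
      simp only [card_filter]
      exact sum_comm
    rw [h4]
    calc ∑ p ∈ P j, (G'.filter (fun z => z + p ∈ B)).card ≤ ∑ _p ∈ P j, B.card := by
          apply sum_le_sum
          intro p _
          apply card_le_card_of_injOn (fun z => z + p)
          · intro z hz
            rw [mem_coe, mem_filter] at hz
            exact hz.2
          · intro z _ z' _ h
            simpa using h
      _ = _ := by simp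
  have h4 : G'.card ≤ n := (card_le_card (filter_subset _ _)).trans hG
  have h5 : G'.card ≤ B.card + m ^ 3 := by
    by_contra h6
    push Not at h6
    have h7 : (P j).card * (B.card + m ^ 3 + 1) ≤ (P j).card * B.card + m ^ 4 * m := by
      calc (P j).card * (B.card + m ^ 3 + 1) ≤ (P j).card * G'.card := by gcongr; omega
        _ = G'.card * (P j).card := by ring
        _ ≤ (P j).card * B.card + G'.card * m := by omega
        _ ≤ (P j).card * B.card + m ^ 4 * m := by gcongr; omega
    have h8 : m ^ 2 * (m ^ 3 + 1) ≤ (P j).card * (m ^ 3 + 1) := by gcongr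
    have h9 : (P j).card * (B.card + m ^ 3 + 1) = (P j).card * B.card + (P j).card * (m ^ 3 + 1) := by
      ring
    have h10 : m ^ 2 * (m ^ 3 + 1) = m ^ 4 * m + m ^ 2 := by ring
    have h11 : 1 ≤ m ^ 2 := Nat.one_le_pow _ _ hm
    omega
  have h6 : con n m c P T ⊆ G' ∪ (range (m ^ 3) ∪ Ioc (n - c j) n) := by
    intro z hz
    rw [mem_union, mem_union, mem_range, mem_Ioc, hG', mem_filter]
    have hz2 := hz
    rw [con, mem_filter, mem_Icc] at hz2
    by_cases h7 : m ^ 3 ≤ z ∧ z + c j ≤ n
    · left; exact ⟨hz, h7⟩
    · right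
      by_cases h8 : z < m ^ 3
      · left; exact h8
      · right
        have : ¬ (z + c j ≤ n) := fun h9 => h7 ⟨not_lt.1 h8, h9⟩
        omega
  have h7 := card_le_card h6
  have h8 := card_union_le G' (range (m ^ 3) ∪ Ioc (n - c j) n)
  have h9 := card_union_le (range (m ^ 3)) (Ioc (n - c j) n)
  rw [card_range, Nat.card_Ioc] at h9
  omega

end Pool.Agent.HubG
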