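import Mathlib

/-!
# Cycles in a fan, combinatorial core
-/

set_option autoImplicit false

namespace Pool.Agent.HubG

open Finset

theorem fan_core (N d : ℕ) (T C : Finset ℕ) (nb : ℕ → Finset ℕ)
    (h1 : ∀ i j, j ∈ nb i → j ∈ C ∧ i ∈ nb j)
    (h2 : ∀ i ∈ C, (nb i).card = 2)
    (h3 : ∀ i j, j ∈ nb i → i < j → (j < N ∧ j = i + 1) ∨ (j = N ∧ (i = 0 ∨ i ∈ T)))
    (h3' : ∀ i, i ∉ nb i)
    (h4 : ∀ i ∈ C, i ≤ N) (hC : C.card = d + 2) (hT : ∀ x ∈ T, N ≤ 2 * x ∧ x < N)
    (hd : N ≤ 2 * d) : d ∈ T := by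
  classical
  -- the positions
  set P : Finset ℕ := C.filter (fun i => i < N) with hP
  have hCP : C ⊆ insert N P := by
    intro i hi
    rw [mem_insert]
    rcases (h4 i hi).lt_or_eq with h | h
    · right; exact mem_filter.2 ⟨hi, h⟩
    · left; exact h
  have hPne : P.Nonempty := by
    rw [nonempty_iff_ne_empty]
    intro h
    rw [h] at hCP
    have := card_le_card hCP
    rw [hC] at this
    simp at this
  have hPmem : ∀ i, i ∈ P ↔ i ∈ C ∧ i < N := fun i => mem_filter
  obtain ⟨a, haP, hamin⟩ : ∃ a ∈ P, ∀ i ∈ P, a ≤ i := ⟨P.min' hPne, P.min'_mem hPne,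
    fun i hi => P.min'_le i hi⟩
  obtain ⟨b, hbP, hbmax⟩ : ∃ b ∈ P, ∀ i ∈ P, i ≤ b := ⟨P.max' hPne, P.max'_mem hPne,
    fun i hi => P.le_max' i hi⟩
  obtain ⟨haC, haN⟩ := (hPmem a).1 haP
  obtain ⟨hbC, hbN⟩ := (hPmem b).1 hbP
  -- the neighbours of a position
  have hnb : ∀ i < N, ∀ j ∈ nb i, (j + 1 = i ∧ j ∈ P) ∨ (j = i + 1 ∧ j ∈ P) ∨
      (j = N ∧ (i = 0 ∨ i ∈ T)) := by
    intro i hi j hj
    obtain ⟨hjC, hij⟩ := h1 i j hj
    rcases lt_trichotomy i j with h | h | h
    · rcases h3 i j hj h with ⟨h5, h6⟩ | h5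
      · right; left; exact ⟨h6, (hPmem j).2 ⟨hjC, h5⟩⟩
      · right; right; exact h5
    · subst h
      exact absurd hj (h3' i)
    · rcases h3 j i hij h with ⟨h5, h6⟩ | ⟨h5, _⟩
      · left; exact ⟨h6.symm, (hPmem j).2 ⟨hjC, by omega⟩⟩
      · omega
  -- the smallest position
  have ha1 : nb a ⊆ {a + 1, N} := by
    intro j hj
    rw [mem_insert, mem_singleton]
    rcases hnb a haN j hj with ⟨h5, h6⟩ | ⟨h5, h6⟩ | ⟨h5, h6⟩
    · have := hamin j h6; omega
    · left; exact h5
    · right; exact h5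
  have ha2 : nb a = {a + 1, N} := by
    apply eq_of_subset_of_card_le ha1
    rw [h2 a haC]
    exact card_le_two
  have haN' : N ∈ nb a := by rw [ha2]; simp
  have ha1' : a + 1 ≠ N := by
    intro h
    have h5 := h2 a haC
    rw [ha2, h] at h5
    simp at h5
  have ha3 : a + 1 ∈ P := by
    have h5 : a + 1 ∈ nb a := by rw [ha2]; simp
    rcases hnb a haN _ h5 with ⟨h6, _⟩ | ⟨_, h6⟩ | ⟨h6, _⟩
    · omega
    · exact h6
    · exact absurd h6 ha1'
  have hab : a < b := by
    have := hbmax _ ha3
    omega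
  -- the largest position
  have hb1 : nb b ⊆ {b - 1, N} := by
    intro j hj
    rw [mem_insert, mem_singleton]
    rcases hnb b hbN j hj with ⟨h5, h6⟩ | ⟨h5, h6⟩ | ⟨h5, h6⟩
    · left; omega
    · have := hbmax j h6; omega
    · right; exact h5
  have hb2 : nb b = {b - 1, N} := by
    apply eq_of_subset_of_card_le hb1
    rw [h2 b hbC]
    exact card_le_two
  have hbN' : N ∈ nb b := by rw [hb2]; simp
  have hbT : b ∈ T := by
    rcases hnb b hbN N hbN' with ⟨h6, _⟩ | ⟨h6, h7⟩ | ⟨_, h6⟩
    · omega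
    · have := ((hPmem N).1 h7).2; omega
    · rcases h6 with h6 | h6
      · omega
      · exact h6
  have haT : a = 0 ∨ a ∈ T := by
    rcases hnb a haN N haN' with ⟨h6, _⟩ | ⟨h6, h7⟩ | ⟨_, h6⟩
    · omega
    · have := ((hPmem N).1 h7).2; omega
    · exact h6
  -- the hub
  have hNC : N ∈ C := (h1 a N haN').1
  have hN2 : nb N = {a, b} := by
    symm
    apply eq_of_subset_of_card_le
    · intro j hj
      rw [mem_insert, mem_singleton] at hj
      rcases hj with rfl | rfl
      · exact (h1 j N haN').2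
      · exact (h1 j N hbN').2
    · rw [h2 N hNC, card_pair (by omega)]
  -- the upper bound for the length
  have hup : d ≤ b - a := by
    have h5 : C ⊆ insert N (Icc a b) := by
      intro i hi
      have := hCP hi
      rw [mem_insert] at this ⊢
      rcases this with h6 | h6
      · left; exact h6
      · right; exact mem_Icc.2 ⟨hamin i h6, hbmax i h6⟩
    have h6 := (card_le_card h5).trans (card_insert_le _ _)
    rw [hC, Nat.card_Icc] at h6
    omega
  have ha0 : a = 0 := by
    rcases haT with h | h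
    · exact h
    · have := (hT a h).1
      omega
  -- all positions occur
  have hall : ∀ i, i ≤ b → i ∈ P := by
    intro i
    induction i with
    | zero => intro _; rw [← ha0]; exact haP
    | succ i ih =>
      intro hi
      have hiP := ih (by omega)
      obtain ⟨hiC, hiN⟩ := (hPmem i).1 hiP
      rcases Nat.eq_zero_or_pos i with h0 | h0
      · rw [h0]; rw [ha0] at ha3; exact ha3
      · by_contra hnot
        have h5 : nb i ⊆ {i - 1} := by
          intro j hj
          rw [mem_singleton]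
          rcases hnb i hiN j hj with ⟨h6, _⟩ | ⟨h6, h7⟩ | ⟨h6, h7⟩
          · omega
          · rw [h6] at h7; exact absurd h7 hnot
          · rw [h6] at hj
            have h8 := (h1 i N hj).2
            rw [hN2, mem_insert, mem_singleton] at h8
            omega
        have h6 := card_le_card h5
        rw [h2 i hiC, card_singleton] at h6
        omega
  have hlow : b ≤ d := by
    have h5 : insert N (range (b + 1)) ⊆ C := by
      intro i hi
      rw [mem_insert, mem_range] at hi
      rcases hi with h | h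
      · rw [h]; exact hNC
      · exact ((hPmem i).1 (hall i (by omega))).1
    have h6 := card_le_card h5
    rw [hC, card_insert_of_notMem (by rw [mem_range]; omega), card_range] at h6
    omega
  have : d = b := by omega
  rw [this]
  exact hbT

end Pool.Agent.HubG
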