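import Pool.Agent.HubG.Cont

set_option autoImplicit false

namespace Pool.Agent.HubG

open Finset

variable {ι : Type} [Fintype ι] {κ : Type}

/-- number of sets with the same code -/
theorem card_fiber (n m : ℕ) (hm : 1 ≤ m) (hn : n ≤ m ^ 4) (F : Finset (Finset ℕ))
    (S : Finset ℕ → ι → Finset ℕ) (E : Finset ℕ → Finset κ) (V : Finset κ)
    (hE : ∀ A ∈ F, E A ⊆ V) (hinj : ∀ A ∈ F, ∀ A' ∈ F, S A = S A' → E A = E A' → A = A')
    (hA : ∀ A ∈ F, A ⊆ Icc 1 n) (hS : ∀ A ∈ F, ∀ j, S A j ⊆ range n)
    (hD : ∀ A ∈ F, ∀ j, ∀ x ∈ S A j, ∀ y ∈ S A j, x < y → y - x ∈ A)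
    (c : ι → ℕ) (C : ι → Finset ℕ) (T : Finset ℕ)
    (hc : ∀ A ∈ F, ∀ j, cut n m (S A j) = c j)
    (hC : ∀ A ∈ F, ∀ j, (S A j).filter (fun x => x < c j) = C j)
    (hT : ∀ A ∈ F, T ⊆ Icc 1 n \ A)
    (hcon : ∀ A ∈ F, Icc 1 n \ A ⊆ con n m c
      (fun j => (C j).filter (fun x => c j - m ^ 3 ≤ x)) T) :
    F.card ≤ 2 ^ ((Fintype.card ι * (n + 2 * m ^ 3) + V.card) / (Fintype.card ι + 1)) := by
  classical
  rcases F.eq_empty_or_nonempty with hF | ⟨A0, hA0⟩
  · rw [hF, card_empty]; exact Nat.zero_le _
  set P : ι → Finset ℕ := fun j => (C j).filter (fun x => c j - m ^ 3 ≤ x) with hP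
  set Fr : ι → Finset ℕ := fun j => fre n (c j) (P j) T with hFr
  set G := con n m c P T with hG
  have hPA : ∀ A ∈ F, ∀ j, P j = (S A j).filter (fun x => c j - m ^ 3 ≤ x ∧ x < c j) := by
    intro A h j
    simp only [hP]
    rw [← hC A h j, filter_filter]
    apply filter_congr
    intro x _
    exact and_comm
  -- first bound
  have hb1 : F.card ≤ 2 ^ (∑ j, (Fr j).card + V.card) := by
    have h1 : F.card ≤ (Fintype.piFinset (fun j => (Fr j).powerset) ×ˢ V.powerset).card := by
      apply card_le_card_of_injOn (fun A => (fun j => S A j ∩ Fr j, E A))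
      · intro A hA1
        rw [mem_coe] at hA1
        rw [mem_coe, mem_product, Fintype.mem_piFinset]
        refine ⟨?_, mem_powerset.2 (hE A hA1)⟩
        intro j
        rw [mem_powerset]
        exact inter_subset_right
      · intro A hA1 A' hA2 h
        rw [mem_coe] at hA1 hA2
        have hfst := congrArg Prod.fst h
        have hsnd := congrArg Prod.snd h
        simp only at hfst hsnd
        refine hinj A hA1 A' hA2 ?_ hsnd
        have key : ∀ B ∈ F, ∀ j, S B j = C j ∪ (S B j ∩ Fr j) := by
          intro B hB j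
          ext x
          rw [mem_union, mem_inter]
          constructor
          · intro hx
            by_cases h1 : x < c j
            · left
              rw [← hC B hB j, mem_filter]
              exact ⟨hx, h1⟩
            · right
              refine ⟨hx, ?_⟩
              simp only [hFr]
              rw [fre, mem_filter, mem_Ico]
              refine ⟨⟨not_lt.1 h1, mem_range.1 (hS B hB j hx)⟩, ?_⟩
              rintro ⟨z, hz, p, hp, h2⟩
              rw [hPA B hB j, mem_filter] at hp
              have h3 := hD B hB j p hp.1 x hx (by omega)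
              have h4 := hT B hB hz
              rw [mem_sdiff] at h4
              apply h4.2
              rw [h2, Nat.add_sub_cancel] at h3
              exact h3
          · rintro (hx | hx)
            · rw [← hC B hB j, mem_filter] at hx
              exact hx.1
            · exact hx.1
        funext j
        rw [key A hA1 j, key A' hA2 j]
        have := congrFun hfst j
        rw [this]
    rw [card_product, Fintype.card_piFinset] at h1
    simp only [card_powerset] at h1
    rw [prod_pow_eq_pow_sum, ← pow_add] at h1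
    exact h1
  -- second bound
  have hb2 : F.card ≤ 2 ^ G.card := by
    rw [← card_powerset]
    apply card_le_card_of_injOn (fun A => Icc 1 n \ A)
    · intro A h
      rw [mem_coe, mem_powerset]
      exact hcon A h
    · intro A hA1 A' hA2 h
      rw [mem_coe] at hA1 hA2
      simp only at h
      rw [← Finset.sdiff_sdiff_eq_self (hA A hA1), h, Finset.sdiff_sdiff_eq_self (hA A' hA2)]
  -- the two exponents
  have hb3 : ∀ j, (Fr j).card + G.card ≤ n + 2 * m ^ 3 := by
    intro j
    have h1 := cut_spec n m hm hn (S A0 j) (hS A0 hA0 j)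
    rw [hc A0 hA0 j] at h1
    by_cases h2 : c j < n
    · obtain ⟨h3, h4⟩ := h1.2.2 h2
      have h5 := con_add_fre n m hm hn c P T j h3 (by
        intro p hp
        rw [hPA A0 hA0 j, mem_filter] at hp
        exact hp.2) (by rw [hPA A0 hA0 j]; exact h4)
      simp only [hFr, hG]
      omega
    · have h3 : Fr j = ∅ := by
        simp only [hFr]
        rw [fre, Ico_eq_empty (by omega), filter_empty]
      have h4 : G.card ≤ n := by
        have := card_le_card (filter_subset (fun z => ∀ j, (hit n (c j) (P j) T z).card < m)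
          (Icc 1 n))
        rw [Nat.card_Icc] at this
        simpa [hG, con] using this
      rw [h3, card_empty]; omega
  have hb4 : ∑ j, (Fr j).card + Fintype.card ι * G.card ≤ Fintype.card ι * (n + 2 * m ^ 3) := by
    calc ∑ j, (Fr j).card + Fintype.card ι * G.card = ∑ j, ((Fr j).card + G.card) := by
          rw [sum_add_distrib]; simp [Finset.card_univ]
      _ ≤ ∑ _j : ι, (n + 2 * m ^ 3) := sum_le_sum (fun j _ => hb3 j)
      _ = _ := by simp [Finset.card_univ]
  have hb5 : min (∑ j, (Fr j).card + V.card) G.card ≤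
      (Fintype.card ι * (n + 2 * m ^ 3) + V.card) / (Fintype.card ι + 1) := by
    rw [Nat.le_div_iff_mul_le (by omega)]
    calc min (∑ j, (Fr j).card + V.card) G.card * (Fintype.card ι + 1)
        = min (∑ j, (Fr j).card + V.card) G.card +
          Fintype.card ι * min (∑ j, (Fr j).card + V.card) G.card := by ring
      _ ≤ (∑ j, (Fr j).card + V.card) + Fintype.card ι * G.card := by
          gcongr
          · exact min_le_left _ _
          · exact min_le_right _ _
      _ = (∑ j, (Fr j).card + Fintype.card ι * G.card) + V.card := by ring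
      _ ≤ _ := Nat.add_le_add_right hb4 _
  calc F.card ≤ 2 ^ min (∑ j, (Fr j).card + V.card) G.card := by
        rcases min_cases (∑ j, (Fr j).card + V.card) G.card with h | h
        · rw [h.1]; exact hb1
        · rw [h.1]; exact hb2
    _ ≤ _ := Nat.pow_le_pow_right (by norm_num) hb5

/-- **Counting lemma.** Every set `A` of the family contains the positive differences of the sets
`S A j` and is determined by them and by a subset of `V`. -/
theorem count (n m : ℕ) (hm : 1 ≤ m) (hn : n ≤ m ^ 4) (F : Finset (Finset ℕ))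
    (S : Finset ℕ → ι → Finset ℕ) (E : Finset ℕ → Finset κ) (V : Finset κ)
    (hE : ∀ A ∈ F, E A ⊆ V) (hinj : ∀ A ∈ F, ∀ A' ∈ F, S A = S A' → E A = E A' → A = A')
    (hA : ∀ A ∈ F, A ⊆ Icc 1 n) (hS : ∀ A ∈ F, ∀ j, S A j ⊆ range n)
    (hD : ∀ A ∈ F, ∀ j, ∀ x ∈ S A j, ∀ y ∈ S A j, x < y → y - x ∈ A) :
    F.card ≤ 2 ^ ((Fintype.card ι * (n + 2 * m ^ 3) + V.card) / (Fintype.card ι + 1)) *
      (((n + 1) ^ (2 * m ^ 3) * (n + m ^ 3 + 1)) ^ Fintype.card ι *
        (n + 1) ^ (Fintype.card ι * m ^ 3)) := by
  classical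
  have hfp : ∀ A : Finset ℕ, ∃ T : Finset ℕ, A ∈ F → T ⊆ Icc 1 n \ A ∧
      m * T.card ≤ Fintype.card ι * n ∧ Icc 1 n \ A ⊆ con n m (fun j => cut n m (S A j))
        (fun j => ((S A j).filter (fun x => x < cut n m (S A j))).filter
          (fun x => cut n m (S A j) - m ^ 3 ≤ x)) T := by
    intro A
    obtain ⟨T, h1, h2, h3⟩ := exists_fingerprint n m hm (fun j => cut n m (S A j))
        (fun j => ((S A j).filter (fun x => x < cut n m (S A j))).filter
          (fun x => cut n m (S A j) - m ^ 3 ≤ x)) (Icc 1 n \ A) sdiff_subset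
    exact ⟨T, fun _ => ⟨h1, h2, h3⟩⟩
  choose T hT using hfp
  set code : Finset ℕ → (ι → Finset ℕ × ℕ) × Finset ℕ := fun A =>
    (fun j => ((S A j).filter (fun x => x < cut n m (S A j)), cut n m (S A j)), T A) with hcode
  set K : Finset ((ι → Finset ℕ × ℕ) × Finset ℕ) :=
    (Fintype.piFinset (fun _ => small (range n) (2 * m ^ 3) ×ˢ range (n + m ^ 3 + 1))) ×ˢ
      small (Icc 1 n) (Fintype.card ι * m ^ 3) with hK
  have h1 : F.image code ⊆ K := by
    intro κ hκ
    rw [mem_image] at hκ
    obtain ⟨A, hAF, rfl⟩ := hκ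
    rw [hK, mem_product, Fintype.mem_piFinset]
    constructor
    · intro j
      have h2 := cut_spec n m hm hn (S A j) (hS A hAF j)
      rw [mem_product, small, mem_filter, mem_powerset, mem_range]
      refine ⟨⟨(filter_subset _ _).trans (hS A hAF j), h2.1⟩, ?_⟩
      have := h2.2.1
      simp only [hcode]
      omega
    · obtain ⟨h2, h3, _⟩ := hT A hAF
      rw [small, mem_filter, mem_powerset]
      refine ⟨h2.trans sdiff_subset, ?_⟩
      simp only [hcode]
      have h4 : m * (T A).card ≤ m * (Fintype.card ι * m ^ 3) := by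
        calc m * (T A).card ≤ Fintype.card ι * n := h3
          _ ≤ Fintype.card ι * m ^ 4 := by gcongr
          _ = m * (Fintype.card ι * m ^ 3) := by ring
      exact Nat.le_of_mul_le_mul_left h4 (by omega)
  have h2 : K.card ≤ ((n + 1) ^ (2 * m ^ 3) * (n + m ^ 3 + 1)) ^ Fintype.card ι *
        (n + 1) ^ (Fintype.card ι * m ^ 3) := by
    rw [hK, card_product, Fintype.card_piFinset]
    simp only [card_product, card_range, prod_const, card_univ]
    have h3 := card_small (range n) (2 * m ^ 3)
    have h4 := card_small (Icc 1 n) (Fintype.card ι * m ^ 3)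
    rw [card_range] at h3
    rw [Nat.card_Icc, Nat.add_sub_cancel] at h4
    gcongr
  refine (card_le_mul_card_image (f := code) F
    (2 ^ ((Fintype.card ι * (n + 2 * m ^ 3) + V.card) / (Fintype.card ι + 1))) ?_).trans ?_
  · intro κ hκ
    have h3 := h1 hκ
    apply card_fiber n m hm hn _ S E V (fun A h => hE A (mem_filter.1 h).1)
        (fun A h A' h' => hinj A (mem_filter.1 h).1 A'
        (mem_filter.1 h').1) (fun A h => hA A (mem_filter.1 h).1)
        (fun A h => hS A (mem_filter.1 h).1) (fun A h => hD A (mem_filter.1 h).1)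
        (fun j => (κ.1 j).2) (fun j => (κ.1 j).1) κ.2
    · intro A h j
      rw [← (mem_filter.1 h).2]
    · intro A h j
      rw [← (mem_filter.1 h).2]
    · intro A h
      rw [← (mem_filter.1 h).2]
      exact (hT A (mem_filter.1 h).1).1
    · intro A h
      rw [← (mem_filter.1 h).2]
      exact (hT A (mem_filter.1 h).1).2.2
  · exact Nat.mul_le_mul_left _ ((card_le_card h1).trans h2)

end Pool.Agent.HubG
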