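import Pool.Agent.HubG.Core
import Pool.Agent.HubG.Bound

/-!
# Fans: the lower bound
-/

set_option autoImplicit false

namespace Pool.Agent.HubG

open Finset

/-- the edges of the fan: the path `0, …, N - 1`, and the hub `N` joined to `0` and `T` -/
def frel (N : ℕ) (T : Finset ℕ) (i j : ℕ) : Prop :=
  i < j ∧ ((j < N ∧ j = i + 1) ∨ (j = N ∧ (i = 0 ∨ i ∈ T)))

/-- the fan -/
def fan (N : ℕ) (T : Finset ℕ) : SimpleGraph (Fin (N + 1)) where
  Adj u v := frel N T u.val v.val ∨ frel N T v.val u.val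
  symm := ⟨fun _ _ h => h.symm⟩
  loopless := ⟨fun u h => by
    rcases h with h | h
    · exact lt_irrefl _ h.1
    · exact lt_irrefl _ h.1⟩

theorem fan_upper (N d : ℕ) (T : Finset ℕ) (hT : ∀ x ∈ T, N ≤ 2 * x ∧ x < N) (hd : N ≤ 2 * d)
    (h : d + 2 ∈ cycleSet (fan N T)) : d ∈ T := by
  classical
  obtain ⟨v, w, hw, hlen⟩ := h
  let C : Finset ℕ := w.support.toFinset.map Fin.valEmbedding
  let nb : ℕ → Finset ℕ := fun i => if h : i < N + 1 then
    ((univ : Finset (Fin (N + 1))).filter (fun u => w.toSubgraph.Adj ⟨i, h⟩ u)).map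
      Fin.valEmbedding else ∅
  have hC : ∀ i, i ∈ C ↔ ∃ h : i < N + 1, (⟨i, h⟩ : Fin (N + 1)) ∈ w.support := by
    intro i
    show i ∈ w.support.toFinset.map Fin.valEmbedding ↔ _
    rw [mem_map]
    constructor
    · rintro ⟨u, hu, rfl⟩
      exact ⟨u.2, List.mem_toFinset.1 hu⟩
    · rintro ⟨h, hu⟩
      exact ⟨⟨i, h⟩, List.mem_toFinset.2 hu, rfl⟩
  have hnb : ∀ i j, j ∈ nb i ↔ ∃ (hi : i < N + 1) (hj : j < N + 1),
      w.toSubgraph.Adj ⟨i, hi⟩ ⟨j, hj⟩ := by
    intro i j
    by_cases hi : i < N + 1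
    · show j ∈ (if h : i < N + 1 then _ else _) ↔ _
      rw [dif_pos hi, mem_map]
      constructor
      · rintro ⟨u, hu, rfl⟩
        exact ⟨hi, u.2, (mem_filter.1 hu).2⟩
      · rintro ⟨_, hj, hu⟩
        exact ⟨⟨j, hj⟩, mem_filter.2 ⟨mem_univ _, hu⟩, rfl⟩
    · show j ∈ (if h : i < N + 1 then _ else _) ↔ _
      rw [dif_neg hi]
      constructor
      · intro h; exact absurd h (notMem_empty _)
      · rintro ⟨h, _⟩; exact absurd h hi
  apply fan_core N d T C nb
  · intro i j hj
    obtain ⟨hi, hj', hadj⟩ := (hnb i j).1 hj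
    refine ⟨(hC j).2 ⟨hj', ?_⟩, (hnb j i).2 ⟨hj', hi, hadj.symm⟩⟩
    exact (SimpleGraph.Walk.mem_verts_toSubgraph w).1 (w.toSubgraph.edge_vert hadj.symm)
  · intro i hi
    obtain ⟨hi', hs⟩ := (hC i).1 hi
    have h1 := hw.ncard_neighborSet_toSubgraph_eq_two hs
    have h2 : nb i = ((univ : Finset (Fin (N + 1))).filter
        (fun u => w.toSubgraph.Adj ⟨i, hi'⟩ u)).map Fin.valEmbedding := by
      show (if h : i < N + 1 then _ else _) = _
      rw [dif_pos hi']
    rw [h2, card_map, ← h1, ← Set.ncard_coe_finset]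
    congr 1
    ext u
    rw [coe_filter]
    show (u ∈ univ ∧ _) ↔ _
    rw [SimpleGraph.Subgraph.mem_neighborSet]
    exact ⟨fun h => h.2, fun h => ⟨mem_univ _, h⟩⟩
  · intro i j hj hij
    obtain ⟨hi, hj', hadj⟩ := (hnb i j).1 hj
    have h1 : (fan N T).Adj ⟨i, hi⟩ ⟨j, hj'⟩ := hadj.adj_sub
    rcases h1 with h1 | h1
    · exact h1.2
    · have := h1.1
      simp only at this
      omega
  · intro i hi
    obtain ⟨hi1, hi2, hadj⟩ := (hnb i i).1 hi
    exact hadj.ne rfl
  · intro i hi
    obtain ⟨hi', _⟩ := (hC i).1 hi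
    omega
  · show (w.support.toFinset.map Fin.valEmbedding).card = d + 2
    rw [card_map, ← hlen]
    have h1 : w.support.toFinset = w.support.tail.toFinset := by
      ext u
      rw [List.mem_toFinset, List.mem_toFinset, SimpleGraph.Walk.mem_support_iff]
      constructor
      · rintro (h | h)
        · rw [h]
          exact SimpleGraph.Walk.end_mem_tail_support (fun hn => hw.not_nil hn)
        · exact h
      · intro h; right; exact h
    rw [h1, List.toFinset_card_of_nodup hw.support_nodup, List.length_tail,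
      SimpleGraph.Walk.length_support]
    omega
  · exact hT
  · exact hd

theorem fan_lower (N : ℕ) (T : Finset ℕ) (x : ℕ) (hx : x ∈ T) (hx0 : 0 < x) (hxN : x < N) :
    x + 2 ∈ cycleSet (fan N T) := by
  have e1 : ∀ i, i ≤ N → (Fin.ofNat (N + 1) i).val = i := fun i hi => Nat.mod_eq_of_lt (by omega)
  have h := hub_cycle (fan N T) (Fin.last N) (fun i => Fin.ofNat (N + 1) i) 0 x hx0
    (by
      intro i _ hi
      left
      refine ⟨?_, Or.inl ⟨?_, ?_⟩⟩
      · rw [e1 i (by omega), e1 (i + 1) (by omega)]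
        omega
      · rw [e1 (i + 1) (by omega)]
        omega
      · rw [e1 i (by omega), e1 (i + 1) (by omega)])
    (by
      intro i j _ hi _ hj hij
      have := congrArg Fin.val hij
      rw [e1 i (by omega), e1 j (by omega)] at this
      exact this)
    (by
      intro i _ hi hij
      have := congrArg Fin.val hij
      rw [e1 i (by omega), Fin.val_last] at this
      omega)
    (by
      right
      refine ⟨?_, Or.inr ⟨Fin.val_last N, Or.inl (e1 0 (by omega))⟩⟩
      rw [e1 0 (by omega), Fin.val_last]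
      omega)
    (by
      right
      refine ⟨?_, Or.inr ⟨Fin.val_last N, Or.inr ?_⟩⟩
      · rw [e1 x (by omega), Fin.val_last]
        exact hxN
      · rw [e1 x (by omega)]
        exact hx)
  rw [Nat.sub_zero] at h
  exact h

theorem fan_near (N : ℕ) (T : Finset ℕ) : NearPath 1 0 (fan N T) := by
  have hne : ∀ i : Fin N, i.castSucc ∉ ({Fin.last N} : Finset (Fin (N + 1))) := by
    intro i
    rw [mem_singleton]
    exact (Fin.castSucc_lt_last i).ne
  let e : Fin N ≃ {v : Fin (N + 1) // v ∉ ({Fin.last N} : Finset (Fin (N + 1)))} :=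
    { toFun := fun i => ⟨i.castSucc, hne i⟩
      invFun := fun v => ⟨v.1.val, by
        have h1 := v.2
        rw [mem_singleton] at h1
        have h2 : v.1.val ≠ N := fun h => h1 (Fin.ext (h.trans (Fin.val_last N).symm))
        have := v.1.2
        omega⟩
      left_inv := fun i => rfl
      right_inv := fun v => rfl }
  refine ⟨{Fin.last N}, N, e, by simp, ?_⟩
  have h1 : (fan N T).comap (fun i => (e i).val) = SimpleGraph.pathGraph N := by
    ext i j
    rw [SimpleGraph.comap_adj, SimpleGraph.pathGraph_adj]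
    show (frel N T i.castSucc.val j.castSucc.val ∨ frel N T j.castSucc.val i.castSucc.val) ↔ _
    rw [Fin.val_castSucc, Fin.val_castSucc]
    have hi := i.2
    have hj := j.2
    constructor
    · rintro (h | h)
      · rcases h.2 with h | h
        · left; exact h.2.symm
        · omega
      · rcases h.2 with h | h
        · right; exact h.2.symm
        · omega
    · rintro (h | h)
      · left; exact ⟨by omega, Or.inl ⟨hj, h.symm⟩⟩
      · right; exact ⟨by omega, Or.inl ⟨hi, h.symm⟩⟩
  rw [h1, symmDiff_self]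
  simp

theorem num_mono (h t t' n : ℕ) (ht : t ≤ t') : num h t n ≤ num h t' n := by
  apply Set.ncard_le_ncard _ (finite_set h t' n)
  rintro A ⟨G, ⟨H, N, e, h1, h2⟩, hA⟩
  exact ⟨G, ⟨H, N, e, h1, h2.trans ht⟩, hA⟩

theorem le_num (N : ℕ) : 2 ^ (N / 2) ≤ num 1 0 (N + 1) := by
  classical
  let U : Finset ℕ := (range N).filter (fun x => N ≤ 2 * x)
  have hU : ∀ x, x ∈ U ↔ x < N ∧ N ≤ 2 * x := by
    intro x
    show x ∈ (range N).filter (fun x => N ≤ 2 * x) ↔ _
    rw [mem_filter, mem_range]
  have hcard : N / 2 ≤ U.card := by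
    have h1 : Ico (N - N / 2) N ⊆ U := by
      intro x hx
      rw [mem_Ico] at hx
      rw [hU]
      omega
    have h2 := card_le_card h1
    rw [Nat.card_Ico] at h2
    omega
  have hsub : ((U.powerset.image (fun T => cycleSet (fan N T)) : Finset (Set ℕ)) :
      Set (Set ℕ)) ⊆ {A : Set ℕ | ∃ G : SimpleGraph (Fin (N + 1)), NearPath 1 0 G ∧
        A = cycleSet G} := by
    intro A hA
    rw [mem_coe, mem_image] at hA
    obtain ⟨T, _, rfl⟩ := hA
    exact ⟨fan N T, fan_near N T, rfl⟩
  have hinj : Set.InjOn (fun T => cycleSet (fan N T)) (U.powerset : Set (Finset ℕ)) := by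
    have key : ∀ T T' : Finset ℕ, T ⊆ U → T' ⊆ U → cycleSet (fan N T) = cycleSet (fan N T') →
        T ⊆ T' := by
      intro T T' hT hT' h x hx
      obtain ⟨h1, h2⟩ := (hU x).1 (hT hx)
      have h3 := fan_lower N T x hx (by omega) h1
      rw [h] at h3
      exact fan_upper N x T' (fun y hy => ⟨((hU y).1 (hT' hy)).2, ((hU y).1 (hT' hy)).1⟩) h2 h3
    intro T hT T' hT' h
    rw [mem_coe, mem_powerset] at hT hT'
    exact Subset.antisymm (key T T' hT hT' h) (key T' T hT' hT h.symm)
  calc 2 ^ (N / 2) ≤ 2 ^ U.card := Nat.pow_le_pow_right (by norm_num) hcard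
    _ = U.powerset.card := (card_powerset U).symm
    _ = (U.powerset.image (fun T => cycleSet (fan N T))).card := (card_image_of_injOn hinj).symm
    _ = ((U.powerset.image (fun T => cycleSet (fan N T)) : Finset (Set ℕ)) :
      Set (Set ℕ)).ncard := (Set.ncard_coe_finset _).symm
    _ ≤ num 1 0 (N + 1) := Set.ncard_le_ncard hsub (finite_set 1 0 (N + 1))

end Pool.Agent.HubG
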