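import Pool.Agent.HubG.Fan

/-!
# The limit for one hub
-/

set_option autoImplicit false

namespace Pool.Agent.HubG

open Filter Topology

theorem err_tendsto (q : ℕ → ℕ)
    (hq : Tendsto (fun n : ℕ => (q n : ℝ) * Real.log n / n) atTop (𝓝 0)) :
    Tendsto (fun n : ℕ => 60 * ((n : ℝ) ^ (3 / 4 : ℝ) + q n) *
      Real.logb 2 (n + 2) / n) atTop (𝓝 0) := by
  have h1 : Tendsto (fun n : ℕ => Real.log (n : ℝ) / (n : ℝ) ^ (1 / 4 : ℝ)) atTop (𝓝 0) := by
    have := (isLittleO_log_rpow_atTop (show (0 : ℝ) < 1 / 4 by norm_num)).tendsto_div_nhds_zero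
    exact this.comp tendsto_natCast_atTop_atTop
  have h2 : Tendsto (fun n : ℕ => (120 / Real.log 2) * (Real.log (n : ℝ) /
      (n : ℝ) ^ (1 / 4 : ℝ) + (q n : ℝ) * Real.log n / n)) atTop (𝓝 0) := by
    have := (h1.add hq).const_mul (120 / Real.log 2)
    simpa using this
  refine tendsto_of_tendsto_of_tendsto_of_le_of_le' tendsto_const_nhds h2 ?_ ?_
  · filter_upwards with n
    have : 0 ≤ Real.logb 2 ((n : ℝ) + 2) := by
      apply Real.logb_nonneg (by norm_num)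
      have : (0 : ℝ) ≤ n := Nat.cast_nonneg n
      linarith
    positivity
  · filter_upwards [eventually_ge_atTop 2] with n hn
    have hn2 : (2 : ℝ) ≤ n := by exact_mod_cast hn
    have hn0 : (0 : ℝ) < n := by linarith
    have hl2 : 0 < Real.log 2 := Real.log_pos (by norm_num)
    have hln : 0 < Real.log n := Real.log_pos (by linarith)
    have h3 : Real.logb 2 ((n : ℝ) + 2) ≤ 2 / Real.log 2 * Real.log n := by
      have h4 : Real.log ((n : ℝ) + 2) ≤ 2 * Real.log n := by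
        have : (2 : ℝ) * Real.log n = Real.log ((n : ℝ) ^ 2) := by
          rw [Real.log_pow]; norm_num
        rw [this]
        apply Real.log_le_log (by linarith)
        nlinarith
      rw [Real.logb, div_mul_eq_mul_div]
      gcongr
    have h6 : (n : ℝ) ^ (3 / 4 : ℝ) / n = 1 / (n : ℝ) ^ (1 / 4 : ℝ) := by
      rw [div_eq_div_iff (by positivity) (by positivity), one_mul, ← Real.rpow_add hn0]
      norm_num
    have hq0 : (0 : ℝ) ≤ q n := Nat.cast_nonneg _
    have hlb : 0 ≤ Real.logb 2 ((n : ℝ) + 2) := Real.logb_nonneg (by norm_num) (by linarith)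
    calc 60 * ((n : ℝ) ^ (3 / 4 : ℝ) + q n) * Real.logb 2 (n + 2) / n
        ≤ 60 * ((n : ℝ) ^ (3 / 4 : ℝ) + q n) *
          (2 / Real.log 2 * Real.log n) / n := by gcongr
      _ = (120 / Real.log 2) * (Real.log (n : ℝ) * ((n : ℝ) ^ (3 / 4 : ℝ) / n) +
          (q n : ℝ) * Real.log n / n) := by
          field_simp
          ring
      _ = _ := by
          rw [h6]
          ring

theorem limit (q : ℕ → ℕ)
    (hq : Tendsto (fun n : ℕ => (q n : ℝ) * Real.log n / n) atTop (𝓝 0)) :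
    Tendsto (fun n : ℕ => (num 1 (q n) n : ℝ) ^ (1 / (n : ℝ))) atTop (𝓝 (Real.sqrt 2)) := by
  have hs : Real.sqrt 2 = (2 : ℝ) ^ (1 / 2 : ℝ) := Real.sqrt_eq_rpow 2
  have hlow : Tendsto (fun n : ℕ => (2 : ℝ) ^ (1 / 2 - 1 / (n : ℝ))) atTop
      (𝓝 (Real.sqrt 2)) := by
    rw [hs]
    have h1 : Tendsto (fun n : ℕ => (1 / 2 - 1 / (n : ℝ))) atTop (𝓝 (1 / 2)) := by
      have := (tendsto_const_nhds (x := (1 / 2 : ℝ))).sub tendsto_one_div_atTop_nhds_zero_nat
      simpa using this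
    exact tendsto_const_nhds.rpow h1 (Or.inl (by norm_num))
  have hup : Tendsto (fun n : ℕ => (2 : ℝ) ^ (1 / 2 + 60 * ((n : ℝ) ^ (3 / 4 : ℝ) + q n) *
      Real.logb 2 (n + 2) / n)) atTop (𝓝 (Real.sqrt 2)) := by
    rw [hs]
    have h1 : Tendsto (fun n : ℕ => (1 / 2 + 60 * ((n : ℝ) ^ (3 / 4 : ℝ) + q n) *
      Real.logb 2 (n + 2) / n)) atTop (𝓝 (1 / 2)) := by
      have := (tendsto_const_nhds (x := (1 / 2 : ℝ))).add (err_tendsto q hq)
      simpa using this
    exact tendsto_const_nhds.rpow h1 (Or.inl (by norm_num))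
  refine tendsto_of_tendsto_of_tendsto_of_le_of_le' hlow hup ?_ ?_
  · filter_upwards [eventually_ge_atTop 1] with n hn
    obtain ⟨N, rfl⟩ := Nat.exists_eq_add_of_le' hn
    have h1 : (2 : ℝ) ^ (N / 2) ≤ (num 1 (q (N + 1)) (N + 1) : ℝ) := by
      exact_mod_cast (le_num N).trans (num_mono 1 0 (q (N + 1)) (N + 1) (Nat.zero_le _))
    have hN : (0 : ℝ) < ((N + 1 : ℕ) : ℝ) := by positivity
    have h2 : (1 / 2 - 1 / ((N + 1 : ℕ) : ℝ)) ≤ ((N / 2 : ℕ) : ℝ) * (1 / ((N + 1 : ℕ) : ℝ)) := by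
      have h3 : (N : ℝ) - 1 ≤ 2 * ((N / 2 : ℕ) : ℝ) := by
        have : N ≤ 2 * (N / 2) + 1 := by omega
        have h4 : (N : ℝ) ≤ 2 * ((N / 2 : ℕ) : ℝ) + 1 := by exact_mod_cast this
        linarith
      rw [mul_one_div, div_sub_div _ _ two_ne_zero hN.ne', div_le_div_iff₀ (by positivity) hN]
      push_cast at *
      nlinarith
    calc (2 : ℝ) ^ (1 / 2 - 1 / ((N + 1 : ℕ) : ℝ))
        ≤ 2 ^ (((N / 2 : ℕ) : ℝ) * (1 / ((N + 1 : ℕ) : ℝ))) :=
          Real.rpow_le_rpow_of_exponent_le (by norm_num) h2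
      _ = ((2 : ℝ) ^ (N / 2)) ^ (1 / ((N + 1 : ℕ) : ℝ)) := by
          rw [Real.rpow_mul (by norm_num), Real.rpow_natCast]
      _ ≤ _ := by
          apply Real.rpow_le_rpow (by positivity) h1 (by positivity)
  · filter_upwards [eventually_ge_atTop 1] with n hn
    have hn0 : (0 : ℝ) < n := by exact_mod_cast hn
    have h1 := num_le n 1 (q n) le_rfl
    have h2 : (num 1 (q n) n : ℝ) ^ (1 / (n : ℝ)) ≤ _ :=
      Real.rpow_le_rpow (Nat.cast_nonneg _) h1 (by positivity)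
    refine h2.trans (le_of_eq ?_)
    rw [← Real.rpow_mul (by norm_num)]
    congr 1
    generalize Real.logb 2 ((n : ℝ) + 2) = L
    generalize (n : ℝ) ^ (3 / 4 : ℝ) = t
    push_cast
    field_simp
    ring

end Pool.Agent.HubG
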