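import Pool.Agent.HubG.Graph

/-!
# The code of a graph which is close to a path with few hubs, and of its longest cycle
-/

set_option autoImplicit false

namespace Pool.Agent.HubG

open Finset

/-! ### The code of the cycle -/

/-- step number `s` goes along the path -/
def Reg {n : ℕ} (N : ℕ) (W : ℕ → Fin n) (s : ℕ) : Prop :=
  (W s).val < N ∧ (W (s + 1)).val < N ∧
    ((W (s + 1)).val = (W s).val + 1 ∨ (W s).val = (W (s + 1)).val + 1)

open Classical in
/-- the other steps -/
noncomputable def Js {n : ℕ} (N l : ℕ) (W : ℕ → Fin n) : Finset ℕ :=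
  (range l).filter (fun s => s + 1 < l ∧ ¬ Reg N W s)

/-- the other steps with their ends -/
noncomputable def Jp {n : ℕ} (N l : ℕ) (W : ℕ → Fin n) : Finset (ℕ × Fin n) := by
  classical
  exact (Js N l W).image (fun s => (s, W (s + 1)))

open Classical in
/-- directions after a jump -/
noncomputable def Dr {n : ℕ} (N l : ℕ) (W : ℕ → Fin n) : Finset ℕ :=
  (range l).filter (fun s => s + 1 < l ∧ Reg N W s ∧ (s = 0 ∨ ¬ Reg N W (s - 1)) ∧
    (W (s + 1)).val = (W s).val + 1)

theorem mem_Js {n : ℕ} {N l : ℕ} {W : ℕ → Fin n} {s : ℕ} :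
    s ∈ Js N l W ↔ s + 1 < l ∧ ¬ Reg N W s := by
  classical
  rw [Js, mem_filter, mem_range]
  exact ⟨fun h => h.2, fun h => ⟨by omega, h⟩⟩

theorem mem_Jp {n : ℕ} {N l : ℕ} {W : ℕ → Fin n} {s : ℕ} {v : Fin n} :
    (s, v) ∈ Jp N l W ↔ (s + 1 < l ∧ ¬ Reg N W s) ∧ v = W (s + 1) := by
  classical
  unfold Jp
  rw [mem_image]
  constructor
  · rintro ⟨s', h1, h2⟩
    rw [Prod.mk.injEq] at h2
    obtain ⟨rfl, rfl⟩ := h2
    exact ⟨mem_Js.1 h1, rfl⟩
  · rintro ⟨h1, rfl⟩
    exact ⟨s, mem_Js.2 h1, rfl⟩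

theorem mem_Dr {n : ℕ} {N l : ℕ} {W : ℕ → Fin n} {s : ℕ} :
    s ∈ Dr N l W ↔ s + 1 < l ∧ Reg N W s ∧ (s = 0 ∨ ¬ Reg N W (s - 1)) ∧
      (W (s + 1)).val = (W s).val + 1 := by
  classical
  rw [Dr, mem_filter, mem_range]
  exact ⟨fun h => h.2, fun h => ⟨by omega, h⟩⟩

theorem card_Dr {n : ℕ} (N l : ℕ) (W : ℕ → Fin n) :
    (Dr N l W).card ≤ (Js N l W).card + 1 := by
  classical
  have h1 : Dr N l W ⊆ insert 0 ((Js N l W).image (fun s => s + 1)) := by
    intro s hs
    obtain ⟨h1, h2, h3, h4⟩ := mem_Dr.1 hs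
    rw [mem_insert, mem_image]
    rcases Nat.eq_zero_or_pos s with h0 | h0
    · left; exact h0
    · right
      refine ⟨s - 1, mem_Js.2 ⟨by omega, ?_⟩, by omega⟩
      rcases h3 with h3 | h3
      · omega
      · exact h3
  calc (Dr N l W).card ≤ _ := card_le_card h1
    _ ≤ _ := card_insert_le _ _
    _ ≤ _ := Nat.add_le_add_right card_image_le 1

/-- the cycle is determined by the code -/
theorem W_recon {n : ℕ} (N l : ℕ) (W W' : ℕ → Fin n)
    (hW : ∀ s t, s < l → t < l → W s = W t → s = t)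
    (hW' : ∀ s t, s < l → t < l → W' s = W' t → s = t)
    (h0 : W 0 = W' 0) (hJ : Jp N l W = Jp N l W') (hD : Dr N l W = Dr N l W') :
    ∀ s, s < l → W s = W' s := by
  have hJs : ∀ s, s + 1 < l → (Reg N W s ↔ Reg N W' s) := by
    intro s hs
    constructor
    · intro h
      by_contra h2
      have h3 : (s, W' (s + 1)) ∈ Jp N l W' := mem_Jp.2 ⟨⟨hs, h2⟩, rfl⟩
      rw [← hJ] at h3
      exact (mem_Jp.1 h3).1.2 h
    · intro h
      by_contra h2
      have h3 : (s, W (s + 1)) ∈ Jp N l W := mem_Jp.2 ⟨⟨hs, h2⟩, rfl⟩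
      rw [hJ] at h3
      exact (mem_Jp.1 h3).1.2 h
  intro s
  induction s using Nat.strong_induction_on with
  | _ s ih =>
    intro hs
    rcases Nat.eq_zero_or_pos s with h | h
    · rw [h]; exact h0
    · obtain ⟨r, rfl⟩ := Nat.exists_eq_add_of_le' h
      have hr : W r = W' r := ih r (by omega) (by omega)
      by_cases hreg : Reg N W r
      · have hreg' := (hJs r hs).1 hreg
        -- the direction is the same
        have hdir : (W (r + 1)).val = (W r).val + 1 ↔ (W' (r + 1)).val = (W' r).val + 1 := by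
          by_cases h1 : r = 0 ∨ ¬ Reg N W (r - 1)
          · have h1' : r = 0 ∨ ¬ Reg N W' (r - 1) := by
              rcases h1 with h1 | h1
              · left; exact h1
              · rcases Nat.eq_zero_or_pos r with h2 | h2
                · left; exact h2
                · right
                  rw [← hJs (r - 1) (by omega)]
                  exact h1
            have h2 : r ∈ Dr N l W ↔ r ∈ Dr N l W' := by rw [hD]
            rw [mem_Dr, mem_Dr] at h2
            constructor
            · intro h3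
              exact (h2.1 ⟨hs, hreg, h1, h3⟩).2.2.2
            · intro h3
              exact (h2.2 ⟨hs, hreg', h1', h3⟩).2.2.2
          · push Not at h1
            obtain ⟨h2, h3⟩ := h1
            obtain ⟨q, rfl⟩ := Nat.exists_eq_add_of_le' (Nat.pos_of_ne_zero h2)
            rw [Nat.add_sub_cancel] at h3
            have hq : W q = W' q := ih q (by omega) (by omega)
            have h3' := (hJs q (by omega)).1 h3
            have key : ∀ (U : ℕ → Fin n), (∀ s t, s < l → t < l → U s = U t → s = t) →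
                Reg N U q → Reg N U (q + 1) →
                ((U (q + 1 + 1)).val = (U (q + 1)).val + 1 ↔ (U (q + 1)).val = (U q).val + 1) := by
              intro U hU h5 h6
              have h7 : (U (q + 1 + 1)).val ≠ (U q).val := by
                intro h8
                have := hU _ _ hs (by omega) (Fin.ext h8)
                omega
              obtain ⟨_, _, h8⟩ := h5
              obtain ⟨_, _, h9⟩ := h6
              omega
            rw [key W hW h3 hreg, key W' hW' h3' hreg', hq, hr]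
        obtain ⟨_, _, h1⟩ := hreg
        obtain ⟨_, _, h2⟩ := hreg'
        apply Fin.ext
        show (W (r + 1)).val = (W' (r + 1)).val
        rw [hr] at h1 hdir
        by_cases h3 : (W (r + 1)).val = (W' r).val + 1
        · have := hdir.1 h3
          omega
        · have h4 : ¬ (W' (r + 1)).val = (W' r).val + 1 := fun h5 => h3 (hdir.2 h5)
          rcases h1 with h1 | h1
          · exact absurd h1 h3
          · rcases h2 with h2 | h2
            · exact absurd h2 h4
            · omega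
      · have h1 : (r, W (r + 1)) ∈ Jp N l W := mem_Jp.2 ⟨⟨hs, hreg⟩, rfl⟩
        rw [hJ] at h1
        exact (mem_Jp.1 h1).2

/-! ### The code of the graph -/

open Classical in
/-- differences to the path `0, …, N - 1` -/
noncomputable def Ds {n : ℕ} (G : SimpleGraph (Fin n)) (N : ℕ) : Finset (Fin n × Fin n) :=
  univ.filter (fun p => p.1 < p.2 ∧ p.2.val < N ∧ (G.Adj p.1 p.2 ↔ ¬ p.2.val = p.1.val + 1))

theorem mem_Ds {n : ℕ} {G : SimpleGraph (Fin n)} {N : ℕ} {u v : Fin n} :
    (u, v) ∈ Ds G N ↔ u < v ∧ v.val < N ∧ (G.Adj u v ↔ ¬ v.val = u.val + 1) := by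
  classical
  rw [Ds, mem_filter]
  exact ⟨fun h => h.2, fun h => ⟨mem_univ _, h⟩⟩

/-- pairs of hubs -/
def HU {n : ℕ} (N : ℕ) : Finset (Fin n × Fin n) :=
  (univ.filter (fun u : Fin n => N ≤ u.val)) ×ˢ (univ.filter (fun u : Fin n => N ≤ u.val))

open Classical in
/-- the edges between hubs -/
noncomputable def Hs {n : ℕ} (G : SimpleGraph (Fin n)) (N : ℕ) : Finset (Fin n × Fin n) :=
  (HU N).filter (fun p => G.Adj p.1 p.2)

theorem mem_HU {n : ℕ} {N : ℕ} {u v : Fin n} : (u, v) ∈ HU N ↔ N ≤ u.val ∧ N ≤ v.val := by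
  rw [HU, mem_product, mem_filter, mem_filter]
  exact ⟨fun h => ⟨h.1.2, h.2.2⟩, fun h => ⟨⟨mem_univ _, h.1⟩, ⟨mem_univ _, h.2⟩⟩⟩

theorem mem_Hs {n : ℕ} {G : SimpleGraph (Fin n)} {N : ℕ} {u v : Fin n} :
    (u, v) ∈ Hs G N ↔ (N ≤ u.val ∧ N ≤ v.val) ∧ G.Adj u v := by
  classical
  rw [Hs, mem_filter, mem_HU]

theorem card_hubs {n : ℕ} (N h : ℕ) (hN : n ≤ N + h) :
    (univ.filter (fun u : Fin n => N ≤ u.val)).card ≤ h := by
  calc (univ.filter (fun u : Fin n => N ≤ u.val)).card ≤ (Ico N n).card := by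
        apply card_le_card_of_injOn (fun u : Fin n => u.val)
        · intro u hu
          rw [mem_coe, mem_filter] at hu
          rw [mem_coe, mem_Ico]
          exact ⟨hu.2, u.2⟩
        · intro u _ v _ h
          exact Fin.ext h
    _ ≤ h := by rw [Nat.card_Ico]; omega

/-- not on the cycle -/
def Off {n : ℕ} (l : ℕ) (W : ℕ → Fin n) : Finset (Fin n) :=
  univ.filter (fun v => ∀ s ∈ range l, W s ≠ v)

theorem mem_Off {n : ℕ} {l : ℕ} {W : ℕ → Fin n} {v : Fin n} :
    v ∈ Off l W ↔ ∀ s, s < l → W s ≠ v := by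
  rw [Off, mem_filter]
  constructor
  · intro h s hs
    exact h.2 s (mem_range.2 hs)
  · intro h
    exact ⟨mem_univ _, fun s hs => h s (mem_range.1 hs)⟩

theorem card_Off {n : ℕ} (l : ℕ) (W : ℕ → Fin n)
    (hW : ∀ s t, s < l → t < l → W s = W t → s = t) : (Off l W).card + l = n := by
  have h1 : (Off l W)ᶜ = (range l).image W := by
    ext v
    rw [mem_compl, mem_Off, mem_image]
    push Not
    constructor
    · rintro ⟨s, h1, h2⟩
      exact ⟨s, mem_range.2 h1, h2⟩
    · rintro ⟨s, h1, h2⟩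
      exact ⟨s, mem_range.1 h1, h2⟩
  have h2 : ((range l).image W).card = l := by
    rw [card_image_of_injOn, card_range]
    intro s hs t ht hst
    rw [mem_coe, mem_range] at hs ht
    exact hW s t hs ht hst
  have h3 := Finset.card_add_card_compl (Off l W)
  rw [h1, h2, Fintype.card_fin] at h3
  exact h3

/-- the other places of neighbours of hubs -/
def EV {n : ℕ} (N l : ℕ) (W : ℕ → Fin n) : Finset (Fin n × Fin n) :=
  (univ.filter (fun u : Fin n => N ≤ u.val)) ×ˢ (Off l W)

open Classical in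
/-- the edges from hubs to vertices outside of the cycle -/
noncomputable def Es {n : ℕ} (G : SimpleGraph (Fin n)) (N l : ℕ) (W : ℕ → Fin n) :
    Finset (Fin n × Fin n) :=
  (EV N l W).filter (fun p => G.Adj p.1 p.2)

theorem mem_Es {n : ℕ} {G : SimpleGraph (Fin n)} {N l : ℕ} {W : ℕ → Fin n} {u v : Fin n} :
    (u, v) ∈ Es G N l W ↔ (N ≤ u.val ∧ ∀ s, s < l → W s ≠ v) ∧ G.Adj u v := by
  classical
  rw [Es, mem_filter, EV, mem_product, mem_filter, mem_Off]
  exact ⟨fun h => ⟨⟨h.1.1.2, h.1.2⟩, h.2⟩, fun h => ⟨⟨⟨mem_univ _, h.1.1⟩, h.1.2⟩, h.2⟩⟩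

/-- the graph is determined by its code -/
theorem G_recon {n : ℕ} (G G' : SimpleGraph (Fin n)) (N l : ℕ) (W : ℕ → Fin n) (hl : 0 < l)
    (hD : Ds G N = Ds G' N) (hH : Hs G N = Hs G' N) (hE : Es G N l W = Es G' N l W)
    (hS : ∀ a : Fin n, N ≤ a.val → Sa G l W a = Sa G' l W a) : G = G' := by
  have key : ∀ (G G' : SimpleGraph (Fin n)), Ds G N = Ds G' N → Hs G N = Hs G' N →
      Es G N l W = Es G' N l W → (∀ a : Fin n, N ≤ a.val → Sa G l W a = Sa G' l W a) →
      ∀ u v, u < v → G.Adj u v → G'.Adj u v := by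
    intro G G' h1 h2 h3 h4 u v huv hA
    by_cases hv : v.val < N
    · have h5 : (u, v) ∈ Ds G N ↔ (u, v) ∈ Ds G' N := by rw [h1]
      rw [mem_Ds, mem_Ds] at h5
      by_cases h6 : v.val = u.val + 1
      · by_contra h7
        have h8 := (h5.2 ⟨huv, hv, ⟨fun h => absurd h h7, fun h => absurd h6 h⟩⟩).2.2
        exact h8.1 hA h6
      · have h8 := (h5.1 ⟨huv, hv, ⟨fun _ => h6, fun _ => hA⟩⟩).2.2
        exact h8.2 h6
    · push Not at hv
      by_cases hu : N ≤ u.val
      · have h5 : (u, v) ∈ Hs G N := mem_Hs.2 ⟨⟨hu, hv⟩, hA⟩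
        rw [h2] at h5
        exact (mem_Hs.1 h5).2
      · by_cases h6 : ∀ s, s < l → W s ≠ u
        · have h5 : (v, u) ∈ Es G N l W := mem_Es.2 ⟨⟨hv, h6⟩, hA.symm⟩
          rw [h3] at h5
          exact (mem_Es.1 h5).2.symm
        · push Not at h6
          obtain ⟨s, hs, hsu⟩ := h6
          -- the place
          set c := rot l W v with hc
          have h7 : ∃ t, t < l ∧ (c + t) % l = s := by
            refine ⟨(s + (l - c % l)) % l, Nat.mod_lt _ hl, ?_⟩
            have h8 : c % l < l := Nat.mod_lt _ hl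
            rw [Nat.add_mod, Nat.mod_mod, ← Nat.add_mod]
            have h9 : c + (s + (l - c % l)) = s + l * (c / l + 1) := by
              have := Nat.div_add_mod c l
              have h10 : l * (c / l + 1) = l * (c / l) + l := by ring
              omega
            rw [h9, Nat.add_mul_mod_self_left, Nat.mod_eq_of_lt hs]
          obtain ⟨t, ht, hts⟩ := h7
          have h8 : t ∈ Sa G l W v := by
            rw [mem_Sa]
            refine ⟨ht, ?_⟩
            rw [hts, hsu]
            exact hA.symm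
          rw [h4 v hv, mem_Sa, ← hc, hts, hsu] at h8
          exact h8.2.symm
  have key2 : ∀ (G G' : SimpleGraph (Fin n)), Ds G N = Ds G' N → Hs G N = Hs G' N →
      Es G N l W = Es G' N l W → (∀ a : Fin n, N ≤ a.val → Sa G l W a = Sa G' l W a) →
      ∀ u v, G.Adj u v → G'.Adj u v := by
    intro G G' h1 h2 h3 h4 u v hA
    rcases lt_trichotomy u v with h | h | h
    · exact key G G' h1 h2 h3 h4 u v h hA
    · exact absurd h hA.ne
    · exact (key G G' h1 h2 h3 h4 v u h hA.symm).symm
  ext u v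
  exact ⟨key2 G G' hD hH hE hS u v,
    key2 G' G hD.symm hH.symm hE.symm (fun a ha => (hS a ha).symm) u v⟩

/-- the number of jumps -/
theorem card_Js {n : ℕ} (G : SimpleGraph (Fin n)) (N h l : ℕ) (W : ℕ → Fin n)
    (hN : n ≤ N + h) (hW : CycSeq G l W) :
    (Js N l W).card ≤ 2 * h + (Ds G N).card := by
  classical
  set J1 := (Js N l W).filter (fun s => N ≤ (W s).val) with hJ1
  set J2 := (Js N l W).filter (fun s => N ≤ (W (s + 1)).val) with hJ2
  set J3 := (Js N l W).filter (fun s => (W s).val < N ∧ (W (s + 1)).val < N) with hJ3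
  have h0 : Js N l W ⊆ J1 ∪ (J2 ∪ J3) := by
    intro s hs
    rw [mem_union, mem_union, hJ1, hJ2, hJ3, mem_filter, mem_filter, mem_filter]
    by_cases h1 : N ≤ (W s).val
    · left; exact ⟨hs, h1⟩
    · right
      by_cases h2 : N ≤ (W (s + 1)).val
      · left; exact ⟨hs, h2⟩
      · right; exact ⟨hs, by omega, by omega⟩
  have h1 : J1.card ≤ h := by
    refine le_trans ?_ (card_hubs N h hN)
    apply card_le_card_of_injOn W
    · intro s hs
      rw [mem_coe, hJ1, mem_filter] at hs
      rw [mem_coe, mem_filter]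
      exact ⟨mem_univ _, hs.2⟩
    · intro s hs t ht hst
      rw [mem_coe, hJ1, mem_filter, mem_Js] at hs ht
      exact hW.inj s t (by omega) (by omega) hst
  have h2 : J2.card ≤ h := by
    refine le_trans ?_ (card_hubs N h hN)
    apply card_le_card_of_injOn (fun s => W (s + 1))
    · intro s hs
      rw [mem_coe, hJ2, mem_filter] at hs
      rw [mem_coe, mem_filter]
      exact ⟨mem_univ _, hs.2⟩
    · intro s hs t ht hst
      rw [mem_coe, hJ2, mem_filter, mem_Js] at hs ht
      have := hW.inj (s + 1) (t + 1) (by omega) (by omega) hst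
      omega
  have h3 : J3.card ≤ (Ds G N).card := by
    apply card_le_card_of_injOn
      (fun s => if W s < W (s + 1) then (W s, W (s + 1)) else (W (s + 1), W s))
    · intro s hs
      rw [mem_coe, hJ3, mem_filter, mem_Js] at hs
      obtain ⟨⟨h4, h5⟩, h6, h7⟩ := hs
      have hadj := hW.adj s h4
      have h8 : ¬ ((W (s + 1)).val = (W s).val + 1 ∨ (W s).val = (W (s + 1)).val + 1) :=
        fun h9 => h5 ⟨h6, h7, h9⟩
      push Not at h8
      rw [mem_coe]
      simp only
      by_cases h9 : W s < W (s + 1)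
      · rw [if_pos h9, mem_Ds]
        exact ⟨h9, h7, fun _ => h8.1, fun _ => hadj⟩
      · rw [if_neg h9, mem_Ds]
        have h10 : W (s + 1) < W s := lt_of_le_of_ne (not_lt.1 h9) hadj.ne.symm
        exact ⟨h10, h6, fun _ => h8.2, fun _ => hadj.symm⟩
    · intro s hs t ht hst
      rw [mem_coe, hJ3, mem_filter, mem_Js] at hs ht
      simp only at hst
      have h4 : (W s = W t ∧ W (s + 1) = W (t + 1)) ∨ (W s = W (t + 1) ∧ W (s + 1) = W t) := by
        by_cases h5 : W s < W (s + 1)
        · by_cases h6 : W t < W (t + 1)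
          · rw [if_pos h5, if_pos h6, Prod.mk.injEq] at hst
            left; exact hst
          · rw [if_pos h5, if_neg h6, Prod.mk.injEq] at hst
            right; exact hst
        · by_cases h6 : W t < W (t + 1)
          · rw [if_neg h5, if_pos h6, Prod.mk.injEq] at hst
            right; exact ⟨hst.2, hst.1⟩
          · rw [if_neg h5, if_neg h6, Prod.mk.injEq] at hst
            left; exact ⟨hst.2, hst.1⟩
      rcases h4 with ⟨h4, _⟩ | ⟨h4, h5⟩
      · exact hW.inj s t (by omega) (by omega) h4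
      · have h6 := hW.inj s (t + 1) (by omega) (by omega) h4
        have h7 := hW.inj (s + 1) t (by omega) (by omega) h5
        omega
  calc (Js N l W).card ≤ (J1 ∪ (J2 ∪ J3)).card := card_le_card h0
    _ ≤ J1.card + (J2 ∪ J3).card := card_union_le _ _
    _ ≤ J1.card + (J2.card + J3.card) := Nat.add_le_add_left (card_union_le _ _) _
    _ ≤ 2 * h + (Ds G N).card := by omega

end Pool.Agent.HubG
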