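import Pool.Agent.HubG.Seq

/-!
# Graphs which are close to a path after the removal of few vertices
-/

set_option autoImplicit false

namespace Pool.Agent.HubG

open Finset

/-- After the removal of a set `H` of at most `h` vertices and a numbering of the others by
`0, …, N - 1`, the edge set of `G` differs in at most `t` edges from the path graph on `N`
vertices. -/
def NearPath (h t : ℕ) {n : ℕ} (G : SimpleGraph (Fin n)) : Prop :=
  ∃ (H : Finset (Fin n)) (N : ℕ) (e : Fin N ≃ {v : Fin n // v ∉ H}), H.card ≤ h ∧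
    (symmDiff (G.comap (fun i => (e i).val)).edgeSet (SimpleGraph.pathGraph N).edgeSet).ncard ≤ t

theorem std {h t n : ℕ} (G : SimpleGraph (Fin n)) (hG : NearPath h t G) :
    ∃ (N : ℕ) (G' : SimpleGraph (Fin n)), N ≤ n ∧ n ≤ N + h ∧ (Ds G' N).card ≤ t ∧
      cycleSet G' = cycleSet G := by
  classical
  obtain ⟨H, N, e, hH, ht⟩ := hG
  have hc : N = n - H.card := by
    have h1 := Fintype.card_congr e
    rw [Fintype.card_fin, Fintype.card_subtype_compl, Fintype.card_fin, Fintype.card_coe] at h1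
    exact h1
  have hHn : H.card ≤ n := by
    have := card_le_card (subset_univ H)
    rwa [Finset.card_univ, Fintype.card_fin] at this
  have hN : N ≤ n := by omega
  let f : {x : Fin n // x.val < N} ≃ Fin N :=
    { toFun := fun x => ⟨x.1.val, x.2⟩
      invFun := fun i => ⟨⟨i.val, by omega⟩, i.2⟩
      left_inv := fun x => rfl
      right_inv := fun i => rfl }
  let ψ : Equiv.Perm (Fin n) := (f.trans e).extendSubtype
  have hψ : ∀ (i : Fin n) (hi : i.val < N), ψ i = (e ⟨i.val, hi⟩).val := by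
    intro i hi
    exact Equiv.extendSubtype_apply_of_mem (f.trans e) i hi
  refine ⟨N, G.comap ψ, hN, by omega, ?_, cycleSet_iso (SimpleGraph.Iso.comap ψ G)⟩
  rw [← Set.ncard_coe_finset]
  refine le_trans ?_ ht
  rcases Nat.eq_zero_or_pos N with h0 | h0
  · have : (Ds (G.comap ψ) N : Set (Fin n × Fin n)) = ∅ := by
      rw [Set.eq_empty_iff_forall_notMem]
      rintro ⟨u, v⟩ h1
      rw [mem_coe, mem_Ds] at h1
      omega
    rw [this, Set.ncard_empty]
    exact Nat.zero_le _
  apply Set.ncard_le_ncard_of_injOn (fun p : Fin n × Fin n =>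
    s((⟨p.1.val % N, Nat.mod_lt _ h0⟩ : Fin N), (⟨p.2.val % N, Nat.mod_lt _ h0⟩ : Fin N)))
  · rintro ⟨u, v⟩ h1
    rw [mem_coe, mem_Ds] at h1
    obtain ⟨h2, h3, h4⟩ := h1
    have h2' : u.val < v.val := h2
    have hu : u.val < N := by omega
    have e1 : (⟨u.val % N, Nat.mod_lt _ h0⟩ : Fin N) = ⟨u.val, hu⟩ :=
      Fin.ext (Nat.mod_eq_of_lt hu)
    have e2 : (⟨v.val % N, Nat.mod_lt _ h0⟩ : Fin N) = ⟨v.val, h3⟩ :=
      Fin.ext (Nat.mod_eq_of_lt h3)
    simp only
    rw [e1, e2]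
    have h5 : (G.comap ψ).Adj u v ↔
        (G.comap (fun i => (e i).val)).Adj ⟨u.val, hu⟩ ⟨v.val, h3⟩ := by
      rw [SimpleGraph.comap_adj, SimpleGraph.comap_adj, hψ u hu, hψ v h3]
    have h6 : (SimpleGraph.pathGraph N).Adj ⟨u.val, hu⟩ ⟨v.val, h3⟩ ↔ v.val = u.val + 1 := by
      rw [SimpleGraph.pathGraph_adj]
      constructor
      · rintro (h | h)
        · exact h.symm
        · simp only at h
          omega
      · intro h
        left
        exact h.symm
    rw [h5] at h4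
    rw [Set.mem_symmDiff, SimpleGraph.mem_edgeSet, SimpleGraph.mem_edgeSet, h6]
    by_cases h7 : v.val = u.val + 1
    · right
      exact ⟨h7, fun h8 => h4.1 h8 h7⟩
    · left
      exact ⟨h4.2 h7, h7⟩
  · rintro ⟨u, v⟩ h1 ⟨u', v'⟩ h1' heq
    rw [mem_coe, mem_Ds] at h1 h1'
    obtain ⟨h2, h3, _⟩ := h1
    obtain ⟨h2', h3', _⟩ := h1'
    have g2 : u.val < v.val := h2
    have g2' : u'.val < v'.val := h2'
    simp only at heq
    rw [Sym2.eq_iff, Fin.mk.injEq, Fin.mk.injEq, Fin.mk.injEq, Fin.mk.injEq,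
      Nat.mod_eq_of_lt (show u.val < N by omega), Nat.mod_eq_of_lt h3,
      Nat.mod_eq_of_lt (show u'.val < N by omega), Nat.mod_eq_of_lt h3'] at heq
    rw [Prod.mk.injEq]
    rcases heq with ⟨h5, h6⟩ | ⟨h5, h6⟩
    · exact ⟨Fin.ext h5, Fin.ext h6⟩
    · omega

end Pool.Agent.HubG
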